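import Pool.Agent.V7H31.OD.Mul

/-!
# The exact density of ordinary reduction: the main theorem
-/

set_option autoImplicit false
set_option linter.all false

namespace Pool.Agent.V7H31.OD

open Module Polynomial NumberField IsDedekindDomain Filter Topology
open Pool.Agent.W401.Cheb Pool.Agent.W528.Ord Pool.Agent.N184.HK

section

variable {K : Type} [Field K] [NumberField K]

lemma dens_close (P Q : HeightOneSpectrum (𝓞 K) → Prop) (c : ℝ)
    (h : Tendsto (dens fun v => ¬ (P v ↔ Q v)) atTop (𝓝 0))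
    (hQ : Tendsto (dens Q) atTop (𝓝 c)) : Tendsto (dens P) atTop (𝓝 c) := by
  have h2 := hQ.add h
  have h3 := hQ.sub h
  rw [add_zero] at h2
  rw [sub_zero] at h3
  refine tendsto_of_tendsto_of_tendsto_of_le_of_le h3 h2 (fun N => ?_) (fun N => ?_)
  · change dens Q N - dens _ N ≤ dens P N
    rw [sub_le_iff_le_add]
    refine le_trans (dens_mono (Q := fun v => P v ∨ ¬ (P v ↔ Q v)) ?_ N) (dens_or _ _ N)
    intro v hv
    by_cases hP : P v
    · exact Or.inl hP
    · exact Or.inr fun hiff => hP (hiff.2 hv)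
  · refine le_trans (dens_mono (Q := fun v => Q v ∨ ¬ (P v ↔ Q v)) ?_ N) (dens_or _ _ N)
    intro v hv
    by_cases hQ : Q v
    · exact Or.inl hQ
    · exact Or.inr fun hiff => hQ (hiff.1 hv)

/-- Chebotarev for an open normal subgroup. -/
lemma dens_sub (H : Subgroup (GK K)) (hH : IsOpen (H : Set (GK K))) (hn : H.Normal) :
    Tendsto (dens fun v : HeightOneSpectrum (𝓞 K) => ∃ σ ∈ H, IsFrob v σ) atTop
      (𝓝 (1 / (H.index : ℝ))) := by
  have h := chebK K H hH (H : Set (GK K))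
    (fun σ hσ τ => hn.conj_mem σ hσ τ) (fun σ hσ u hu => mul_mem hσ hu)
  have h1 : ((QuotientGroup.mk : GK K → GK K ⧸ H) '' (H : Set (GK K))) = {QuotientGroup.mk 1} := by
    ext q
    constructor
    · rintro ⟨x, hx, rfl⟩
      rw [Set.mem_singleton_iff, eq_comm, QuotientGroup.eq]
      simpa using hx
    · rintro rfl
      exact ⟨1, one_mem _, rfl⟩
  rw [h1, Set.ncard_singleton, Nat.cast_one] at h
  exact h

end

section

variable {K : Type} [Field K] [NumberField K] {ℓ : ℕ} [hp : Fact ℓ.Prime] {ι : Type} [Fintype ι]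
  (X : ι → Hyperkaehler K ℓ) (b : ι → ℕ) (L : ∀ i, Lattice (X i).R (b i))

lemma frob_sets (hℓ : ℓ ≠ 2) (hb : ∀ i, (X i).b 2 = b i) :
    Tendsto (dens fun v => ¬ ((∀ i, Ord (X i) v) ↔
      ∃ σ ∈ DD X b L (Finset.univ ×ˢ Finset.Icc (-((∑ i, b i : ℕ) : ℤ)) (∑ i, b i : ℕ)),
        IsFrob v σ)) atTop (𝓝 0) := by
  classical
  set B : ℕ := ∑ i, b i with hB
  set s : Finset (ι × ℤ) := Finset.univ ×ˢ Finset.Icc (-(B : ℤ)) B with hs
  have hU : ∀ F ∈ Algebra.adjoin (PadicAlgCl ℓ) (TT X b L), ∀ V : Subgroup (GK K),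
      IsOpen (V : Set (GK K)) → (∀ x ∈ V, F x = 0) → ∀ u ∈ UU X b L, F u = 0 := by
    intro F hF V hV h u hu
    haveI : Finite (GK K ⧸ V) := Subgroup.quotient_finite_of_isOpen _ hV
    have hVi : V.index ≠ 0 := (Subgroup.finiteIndex_of_finite_quotient (H := V)).index_ne_zero
    exact conn hℓ b (fun i => (L i).mat) (Rd X b L).ker (fun u hu i => UU_cong X b L u hu i) F hF V
      hVi h u hu
  let Z : HeightOneSpectrum (𝓞 K) → Prop := fun v =>
    ¬ (Ideal.absNorm v.asIdeal).Prime ∨ v ∈ ⋃ i, (X i).bad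
  have hZ : Tendsto (dens Z) atTop (𝓝 0) := by
    have h2 := (dens_not_prime (K := K)).add
      (dens_finite (fun v => v ∈ ⋃ i, (X i).bad) (Set.finite_iUnion fun i => (X i).finite))
    rw [add_zero] at h2
    exact squeeze_zero (fun N => dens_nonneg _ _) (fun N => dens_or _ _ N) h2
  have hP : ∀ v, ¬ Z v → ∀ σ, IsFrob v σ →
      ((∀ i, Ord (X i) v) ↔ ∀ j ∈ s, FF X b L j σ ≠ 0) := by
    intro v hv σ hσ
    have hv' : (Ideal.absNorm v.asIdeal).Prime ∧ v ∉ ⋃ i, (X i).bad := by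
      by_contra hcon
      apply hv
      by_cases h1 : (Ideal.absNorm v.asIdeal).Prime
      · exact Or.inr (by_contra fun h2 => hcon ⟨h1, h2⟩)
      · exact Or.inl h1
    obtain ⟨hprime, hbad⟩ := hv'
    rw [Set.mem_iUnion, not_exists] at hbad
    constructor
    · rintro h ⟨i, k⟩ - h0
      obtain ⟨hvi, ho⟩ := h i
      exact not_int (X i) hvi (ho 2 (X i).two_le) hσ k ((FF_zero_iff X b L i k σ).1 h0)
    · intro h i
      refine ⟨hbad i, (ordinary_iff (X i) (hbad i)).1 ?_⟩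
      by_contra hno
      obtain ⟨k, hk, ht⟩ := trace_int (X i) (hbad i) hprime hno hσ
      refine h (i, k) ?_ ((FF_zero_iff X b L i k σ).2 ht)
      simp only [hs, Finset.mem_product, Finset.mem_univ, true_and, Finset.mem_Icc]
      have hbi : b i ≤ B := Finset.single_le_sum (f := b) (fun _ _ => Nat.zero_le _)
        (Finset.mem_univ i)
      rw [hb i] at hk
      have h3 : |k| ≤ (B : ℤ) := hk.trans (by exact_mod_cast hbi)
      exact abs_le.1 h3
  exact (dens_main (TT X b L) (TT_fg X b L) (TT_trans X b L) (TT_cont X b L)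
    (UU X b L) hU s (FF X b L) (fun j _ => FF_mem X b L j) (fun j _ => FF_conj X b L j)
    (fun v => ∀ i, Ord (X i) v) Z hZ hP).1

variable (M : ∀ i, Mult (X i))

omit [Fintype ι] in
lemma mem_fix (x : GK K) : x ∈ (compositum M).fixingSubgroup ↔
    ∀ i, ∀ e : (M i).E, x (e : AlgebraicClosure K) = e := by
  rw [IntermediateField.mem_fixingSubgroup_iff]
  constructor
  · intro h i e
    exact h _ (IntermediateField.subset_adjoin K _ (Set.mem_iUnion.2 ⟨i, e.2⟩))
  · intro h y hy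
    induction hy using IntermediateField.adjoin_induction with
    | mem y hy =>
      obtain ⟨i, hi⟩ := Set.mem_iUnion.1 hy
      exact h i ⟨y, hi⟩
    | algebraMap y => exact x.commutes y
    | add y z _ _ h1 h2 => rw [map_add, h1, h2]
    | inv y _ h1 => rw [map_inv₀, h1]
    | mul y z _ _ h1 h2 => rw [map_mul, h1, h2]

/-- The good Galois elements are those which fix the fields of endomorphisms. -/
lemma DD_eq (hℓ : ℓ ≠ 2) (hb : ∀ i, (X i).b 2 = b i) (x : GK K) :
    x ∈ DD X b L (Finset.univ ×ˢ Finset.Icc (-((∑ i, b i : ℕ) : ℤ)) (∑ i, b i : ℕ)) ↔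
      x ∈ (compositum M).fixingSubgroup := by
  rw [mem_fix X M]
  constructor
  · intro h i e
    by_contra hne
    have h1 := nonfix X b L M hℓ i x e hne
    obtain ⟨k, hk, hc⟩ := const_int X b L i x _ h1
    have hbi : b i ≤ ∑ i, b i := Finset.single_le_sum (f := b) (fun _ _ => Nat.zero_le _)
      (Finset.mem_univ i)
    rw [hb i] at hk
    have h3 : |k| ≤ ((∑ i, b i : ℕ) : ℤ) := hk.trans (by exact_mod_cast hbi)
    obtain ⟨u, hu, hne2⟩ := h (i, k) (by
      simp only [Finset.mem_product, Finset.mem_univ, true_and, Finset.mem_Icc]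
      exact abs_le.1 h3)
    apply hne2
    rw [FF_zero_iff, h1 u hu, hc]
  · rintro h ⟨i, k⟩ -
    obtain ⟨u, hu, hne⟩ := fix X b L M hℓ i x (h i) (k : ℚ_[ℓ])
    exact ⟨u, hu, fun h0 => hne ((FF_zero_iff X b L i k _).1 h0)⟩

include L in
/-- **The exact density.** -/
theorem exact (hℓ : ℓ ≠ 2) (hb : ∀ i, (X i).b 2 = b i) :
    0 < finrank K (compositum M) ∧
    HasDensity (fun v => ∀ i, Ord (X i) v) (1 / finrank K (compositum M)) ∧
    HasDensity (fun v => ¬ ((∀ i, Ord (X i) v) ↔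
      ∃ σ ∈ (compositum M).fixingSubgroup, IsFrob v σ)) 0 ∧
    ∀ v i, (Ideal.absNorm v.asIdeal).Prime → Ord (X i) v → ∀ σ, IsFrob v σ →
      ∀ e ∈ (M i).E, σ e = e := by
  set H := (compositum M).fixingSubgroup with hH
  have hUH : (UU X b L).toSubgroup ≤ H := by
    intro u hu
    rw [hH, mem_fix X M]
    exact fun i e => U_fix X b L M hℓ i u hu e
  have hHo : IsOpen (H : Set (GK K)) := Subgroup.isOpen_mono hUH (UU X b L).isOpen'
  have hn : H.Normal := by
    constructor
    intro x hx τ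
    rw [hH, mem_fix X M] at hx ⊢
    intro i e
    have h1 := hx i ⟨τ⁻¹ e, (M i).stable τ⁻¹ e e.2⟩
    rw [AlgEquiv.mul_apply, AlgEquiv.mul_apply]
    change τ (x (τ⁻¹ (e : AlgebraicClosure K))) = e
    have h2 : x (τ⁻¹ (e : AlgebraicClosure K)) = τ⁻¹ (e : AlgebraicClosure K) := h1
    rw [h2, ← AlgEquiv.mul_apply, mul_inv_cancel, AlgEquiv.one_apply]
  haveI : Finite (GK K ⧸ H) := Subgroup.quotient_finite_of_isOpen _ hHo
  have hi : H.index ≠ 0 := (Subgroup.finiteIndex_of_finite_quotient (H := H)).index_ne_zero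
  have hfin : finrank K (compositum M) = H.index :=
    IntermediateField.finrank_eq_fixingSubgroup_index (E' := AlgebraicClosure K) (compositum M)
  have h1 := frob_sets X b L hℓ hb
  have h2 : (fun v => ¬ ((∀ i, Ord (X i) v) ↔
      ∃ σ ∈ DD X b L (Finset.univ ×ˢ Finset.Icc (-((∑ i, b i : ℕ) : ℤ)) (∑ i, b i : ℕ)),
        IsFrob v σ)) = fun v => ¬ ((∀ i, Ord (X i) v) ↔ ∃ σ ∈ H, IsFrob v σ) := by
    funext v
    congr 2
    refine propext (exists_congr fun σ => ?_)
    rw [DD_eq X b L M hℓ hb σ]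
  rw [h2] at h1
  refine ⟨by rw [hfin]; exact Nat.pos_of_ne_zero hi, ?_, ?_, ?_⟩
  · have h3 := dens_close _ _ _ h1 (dens_sub H hHo hn)
    have h4 := ratio_tendsto _ _ h3
    rw [HasDensity, hfin]
    push_cast
    exact h4
  · have e : ((0 : ℚ) : ℝ) = 0 := by norm_num
    rw [HasDensity, e]
    exact ratio_tendsto _ _ h1
  · intro v i hprime ho σ hσ e he
    by_contra hne
    obtain ⟨hv, hor⟩ := ho
    have h3 := nonfix X b L M hℓ i σ ⟨e, he⟩ hne
    obtain ⟨k, -, hc⟩ := const_int X b L i σ _ h3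
    have h4 := h3 1 (one_mem _)
    rw [mul_one, hc] at h4
    exact not_int (X i) hv (hor 2 (X i).two_le) hσ k h4

end

end Pool.Agent.V7H31.OD
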