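import Pool.Agent.V7H31.OD.App

/-!
# Natural density of ordinary reduction: families
-/

set_option autoImplicit false
set_option linter.all false

namespace Pool.Agent.V7H31.OD

open Module Polynomial NumberField IsDedekindDomain Filter Topology
open Pool.Agent.W401.Cheb Pool.Agent.W528.Ord Pool.Agent.N184.HK

/-- Prime divisors of the orders of all general linear groups over `F_ℓ`. -/
lemma prime_le (ι : Type) [Fintype ι] (b : ι → ℕ) (B : ℕ) (hB : ∀ i, b i ≤ B) (q : ℕ)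
    (hq : q.Prime)
    (h : ∀ (ℓ : ℕ) [Fact ℓ.Prime], ℓ ≠ 2 → q ∣ Nat.card (∀ i, GL (Fin (b i)) (ZMod ℓ))) :
    q ≤ B + 1 := by
  by_contra hlt
  push Not at hlt
  haveI : Fact q.Prime := ⟨hq⟩
  haveI : NeZero q := ⟨hq.ne_zero⟩
  obtain ⟨g, hg⟩ := IsCyclic.exists_generator (α := (ZMod q)ˣ)
  have hord : orderOf g = q - 1 := by
    rw [orderOf_eq_card_of_forall_mem_zpowers hg, Nat.card_eq_fintype_card, ZMod.card_units]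
  have hinf := Nat.infinite_setOf_prime_and_eq_mod (q := q) (a := (g : ZMod q)) g.isUnit
  obtain ⟨ℓ, ⟨hℓp, hℓg⟩, hℓ2⟩ := hinf.exists_gt 2
  haveI : Fact ℓ.Prime := ⟨hℓp⟩
  have h1 := h ℓ (by omega)
  rw [Nat.card_pi] at h1
  obtain ⟨i, -, hi⟩ := (Prime.dvd_finset_prod_iff (Nat.prime_iff.1 hq) _).1 h1
  rw [Matrix.card_GL_field] at hi
  obtain ⟨j, -, hj⟩ := (Prime.dvd_finset_prod_iff (Nat.prime_iff.1 hq) _).1 hi
  rw [ZMod.card] at hj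
  have hjb : (j : ℕ) < b i := j.isLt
  have hle : ℓ ^ (j : ℕ) ≤ ℓ ^ b i := Nat.pow_le_pow_right hℓp.pos hjb.le
  have h2 : (g : ZMod q) ^ b i = (g : ZMod q) ^ (j : ℕ) := by
    have h3 := (ZMod.natCast_eq_zero_iff _ _).2 hj
    rw [Nat.cast_sub hle, sub_eq_zero] at h3
    push_cast at h3
    rwa [hℓg] at h3
  have h4 : g ^ b i = g ^ (j : ℕ) := Units.ext (by push_cast; exact h2)
  have h5 : g ^ (b i - j) = 1 := by
    have : g ^ (b i - j) * g ^ (j : ℕ) = g ^ (j : ℕ) := by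
      rw [← pow_add, Nat.sub_add_cancel hjb.le, h4]
    exact mul_eq_right.1 this
  have h6 := orderOf_dvd_of_pow_eq_one h5
  rw [hord] at h6
  have h7 := Nat.le_of_dvd (by omega) h6
  have := hB i
  omega

lemma den_dvd' (a n : ℕ) : ((a : ℚ) / (n : ℚ)).den ∣ n := by
  have h := Rat.den_dvd (a : ℤ) (n : ℤ)
  rw [Rat.divInt_eq_div, Int.cast_natCast, Int.cast_natCast] at h
  exact Int.natCast_dvd_natCast.1 h

section

variable {K : Type} [Field K] [NumberField K] {ι : Type} [Fintype ι] (𝒳 : Family K ι)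

lemma red_eq (ℓ : ℕ) [Fact ℓ.Prime] (h : ℓ ≠ 2) :
    𝒳.red ℓ h = Rd (𝒳.X ℓ) 𝒳.b (fun i => 𝒳.lat ℓ i h) := rfl

lemma dens_congr (P Q : HeightOneSpectrum (𝓞 K) → Prop) (c : ℝ) (h : {v | ¬ (P v ↔ Q v)}.Finite)
    (hP : Tendsto (dens P) atTop (𝓝 c)) : Tendsto (dens Q) atTop (𝓝 c) := by
  have h1 := dens_finite (fun v => ¬ (P v ↔ Q v)) h
  have h2 := hP.add h1
  have h3 := hP.sub h1
  rw [add_zero] at h2
  rw [sub_zero] at h3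
  refine tendsto_of_tendsto_of_tendsto_of_le_of_le h3 h2 (fun N => ?_) (fun N => ?_)
  · change dens P N - dens _ N ≤ dens Q N
    rw [sub_le_iff_le_add]
    refine le_trans (dens_mono (Q := fun v => Q v ∨ ¬ (P v ↔ Q v)) ?_ N) (dens_or _ _ N)
    intro v hv
    by_cases hQ : Q v
    · exact Or.inl hQ
    · exact Or.inr fun hiff => hQ (hiff.1 hv)
  · refine le_trans (dens_mono (Q := fun v => P v ∨ ¬ (P v ↔ Q v)) ?_ N) (dens_or _ _ N)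
    intro v hv
    by_cases hP : P v
    · exact Or.inl hP
    · exact Or.inr fun hiff => hP (hiff.2 hv)

lemma family_congr (ℓ ℓ' : ℕ) [Fact ℓ.Prime] [Fact ℓ'.Prime] (h : ℓ ≠ 2) (h' : ℓ' ≠ 2) :
    {v | ¬ (𝒳.Ordinary ℓ v ↔ 𝒳.Ordinary ℓ' v)}.Finite := by
  refine Set.Finite.subset (Set.finite_iUnion fun i => 𝒳.same ℓ ℓ' i h h') ?_
  intro v hv
  by_contra hcon
  rw [Set.mem_iUnion, not_exists] at hcon
  apply hv
  exact forall_congr' fun i => not_not.1 (hcon i)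

/-- The main theorem. -/
theorem family_main : ∃ δ : ℚ, 0 < δ ∧
    (∀ (ℓ : ℕ) [Fact ℓ.Prime] (h : ℓ ≠ 2),
      Tendsto (ratio (𝒳.Ordinary ℓ)) atTop (𝓝 (δ : ℝ)) ∧
      (∃ C : Set (∀ i, GL (Fin (𝒳.b i)) (ZMod ℓ)), C ⊆ (𝒳.red ℓ h).range ∧ 1 ∈ C ∧
        (∀ c ∈ C, ∀ g ∈ (𝒳.red ℓ h).range, g * c * g⁻¹ ∈ C) ∧
        δ = (C.ncard : ℚ) / Nat.card (𝒳.red ℓ h).range ∧
        Tendsto (ratio fun v => ¬ (𝒳.Ordinary ℓ v ↔ ∃ σ, IsFrob v σ ∧ 𝒳.red ℓ h σ ∈ C))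
          atTop (𝓝 0)) ∧
      δ.den ∣ ∏ i, Nat.card (GL (Fin (𝒳.b i)) (ZMod ℓ)) ∧
      1 / (Nat.card (𝒳.red ℓ h).range : ℚ) ≤ δ ∧ ((∀ σ, 𝒳.red ℓ h σ = 1) → δ = 1)) ∧
    ∀ B : ℕ, (∀ i, 𝒳.b i ≤ B) → ∀ q : ℕ, q.Prime → q ∣ δ.den → q ≤ B + 1 := by
  classical
  haveI : Fact (Nat.Prime 3) := ⟨by norm_num⟩
  have key : ∀ (ℓ : ℕ) [Fact ℓ.Prime] (h : ℓ ≠ 2), ∃ C : Set (∀ i, GL (Fin (𝒳.b i)) (ZMod ℓ)),
      C ⊆ (𝒳.red ℓ h).range ∧ 1 ∈ C ∧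
      (∀ c ∈ C, ∀ g ∈ (𝒳.red ℓ h).range, g * c * g⁻¹ ∈ C) ∧
      Tendsto (dens fun v => ¬ (𝒳.Ordinary ℓ v ↔ ∃ σ, IsFrob v σ ∧ 𝒳.red ℓ h σ ∈ C))
        atTop (𝓝 0) ∧
      Tendsto (dens (𝒳.Ordinary ℓ)) atTop
        (𝓝 ((C.ncard : ℝ) / (Nat.card (𝒳.red ℓ h).range : ℝ))) := by
    intro ℓ _ h
    exact main_one (𝒳.X ℓ) 𝒳.b (fun i => 𝒳.lat ℓ i h) h (fun i => 𝒳.rank ℓ i h)
  obtain ⟨C3, -, h31, -, -, h3d⟩ := key 3 (by norm_num)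
  set δ : ℚ := (C3.ncard : ℚ) / Nat.card (𝒳.red 3 (by norm_num)).range with hδ
  have hδ0 : 0 < δ := by
    rw [hδ]
    have a1 : 0 < C3.ncard := (Set.ncard_pos (Set.toFinite _)).2 ⟨1, h31⟩
    have a2 : 0 < Nat.card (𝒳.red 3 (by norm_num)).range := Nat.card_pos
    positivity
  have hcast : ((δ : ℚ) : ℝ) = (C3.ncard : ℝ) / (Nat.card (𝒳.red 3 (by norm_num)).range : ℝ) := by
    rw [hδ]; push_cast; rfl
  rw [← hcast] at h3d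
  have hℓd : ∀ (ℓ : ℕ) [Fact ℓ.Prime] (h : ℓ ≠ 2), Tendsto (dens (𝒳.Ordinary ℓ)) atTop
      (𝓝 (δ : ℝ)) := fun ℓ _ h =>
    dens_congr _ _ _ (family_congr 𝒳 3 ℓ (by norm_num) h) h3d
  have hden : ∀ (ℓ : ℕ) [Fact ℓ.Prime] (h : ℓ ≠ 2),
      δ.den ∣ Nat.card (∀ i, GL (Fin (𝒳.b i)) (ZMod ℓ)) ∧
      (∃ C : Set (∀ i, GL (Fin (𝒳.b i)) (ZMod ℓ)), C ⊆ (𝒳.red ℓ h).range ∧ 1 ∈ C ∧
        (∀ c ∈ C, ∀ g ∈ (𝒳.red ℓ h).range, g * c * g⁻¹ ∈ C) ∧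
        δ = (C.ncard : ℚ) / Nat.card (𝒳.red ℓ h).range ∧
        Tendsto (ratio fun v => ¬ (𝒳.Ordinary ℓ v ↔ ∃ σ, IsFrob v σ ∧ 𝒳.red ℓ h σ ∈ C))
          atTop (𝓝 0)) := by
    intro ℓ _ h
    obtain ⟨C, c1, c2, c3, c4, c5⟩ := key ℓ h
    have e1 : (δ : ℝ) = (C.ncard : ℝ) / (Nat.card (𝒳.red ℓ h).range : ℝ) :=
      tendsto_nhds_unique (hℓd ℓ h) c5
    have e2 : δ = (C.ncard : ℚ) / Nat.card (𝒳.red ℓ h).range := by
      have : ((δ : ℚ) : ℝ) = (((C.ncard : ℚ) / Nat.card (𝒳.red ℓ h).range : ℚ) : ℝ) := by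
        rw [e1]; push_cast; rfl
      exact_mod_cast this
    refine ⟨?_, C, c1, c2, c3, e2, ratio_tendsto _ _ c4⟩
    have d1 : δ.den ∣ Nat.card (𝒳.red ℓ h).range := by
      rw [e2]
      exact den_dvd' _ _
    exact d1.trans (Subgroup.card_subgroup_dvd_card _)
  refine ⟨δ, hδ0, ?_, ?_⟩
  · intro ℓ _ h
    obtain ⟨d1, C, c1, c2, c3, e2, c5⟩ := hden ℓ h
    refine ⟨ratio_tendsto _ _ (hℓd ℓ h), ⟨C, c1, c2, c3, e2, c5⟩, ?_, ?_, ?_⟩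
    · rwa [Nat.card_pi] at d1
    · rw [e2]
      have a1 : 1 ≤ C.ncard := (Set.ncard_pos (Set.toFinite _)).2 ⟨1, c2⟩
      have a2 : (0 : ℚ) < Nat.card (𝒳.red ℓ h).range := by exact_mod_cast Nat.card_pos
      exact div_le_div_of_nonneg_right (by exact_mod_cast a1) a2.le
    · intro htriv
      have hr : ((𝒳.red ℓ h).range : Set (∀ i, GL (Fin (𝒳.b i)) (ZMod ℓ))) = {1} := by
        ext x
        constructor
        · rintro ⟨σ, rfl⟩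
          exact htriv σ
        · rintro rfl
          exact one_mem _
      have hC : C = {1} := by
        refine Set.Subset.antisymm ?_ (Set.singleton_subset_iff.2 c2)
        rw [← hr]
        exact c1
      have hcard : Nat.card (𝒳.red ℓ h).range = 1 := by
        have : Nat.card (𝒳.red ℓ h).range =
            ((𝒳.red ℓ h).range : Set (∀ i, GL (Fin (𝒳.b i)) (ZMod ℓ))).ncard := rfl
        rw [this, hr, Set.ncard_singleton]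
      rw [e2, hcard, hC, Set.ncard_singleton]
      norm_num
  · intro B hB q hq hqd
    exact prime_le ι 𝒳.b B hB q hq fun ℓ _ h => hqd.trans (hden ℓ h).1

/-- The main theorem, in terms of the definitions. -/
theorem family_thm : ∃ δ : ℚ, 0 < δ ∧
    (∀ (ℓ : ℕ) [Fact ℓ.Prime] (h : ℓ ≠ 2), HasDensity (𝒳.Ordinary ℓ) δ ∧
      (∃ C, 𝒳.Decides ℓ h C ∧ δ = C.ncard / Nat.card (𝒳.image ℓ h)) ∧
      δ.den ∣ Nat.card (𝒳.GLs ℓ) ∧ 1 / (Nat.card (𝒳.image ℓ h) : ℚ) ≤ δ ∧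
      (𝒳.image ℓ h = ⊥ → δ = 1)) ∧
    ∀ B : ℕ, (∀ i, 𝒳.b i ≤ B) → ∀ q : ℕ, q.Prime → q ∣ δ.den → q ≤ B + 1 := by
  obtain ⟨δ, h0, h1, h2⟩ := family_main 𝒳
  refine ⟨δ, h0, fun ℓ _ h => ?_, h2⟩
  obtain ⟨a1, ⟨C, c1, c2, c3, c4, c5⟩, a3, a4, a5⟩ := h1 ℓ h
  refine ⟨a1, ⟨C, ⟨c1, c2, c3, ?_⟩, c4⟩, ?_, a4, ?_⟩
  · have e : ((0 : ℚ) : ℝ) = 0 := by norm_num
    rw [HasDensity, e]
    exact c5
  · rw [Nat.card_pi]
    exact a3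
  · intro hb
    refine a5 fun σ => ?_
    have h3 : 𝒳.red ℓ h σ ∈ 𝒳.image ℓ h := ⟨σ, rfl⟩
    rw [hb] at h3
    exact Subgroup.mem_bot.1 h3

end

end Pool.Agent.V7H31.OD
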