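import Pool.Agent.V7H61.LieOrd.Alg2
import Pool.Agent.W401.Cheb.Frob
import Pool.Agent.W528.Ord.Main3

/-!
# Natural densities of the sets of places given by equations in the monodromy group
-/

set_option autoImplicit false
set_option linter.all false

namespace Pool.Agent.V7H31.OD

open Polynomial NumberField IsDedekindDomain Filter Topology MeasureTheory
open Pool.Agent.W401.Cheb Pool.Agent.W528.Ord Pool.Agent.V7H61.LieOrd

section

variable {K : Type} [Field K] [NumberField K] {Ω : Type} [Field Ω]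

/-- The union of the cosets of `U` on which `F` is not identically zero. -/
def NZ (U : OpenNormalSubgroup (GK K)) (F : GK K → Ω) : Set (GK K) :=
  {x | ∃ u ∈ U, F (x * u) ≠ 0}

lemma NZ_right {U : OpenNormalSubgroup (GK K)} {F : GK K → Ω} {x : GK K} (hx : x ∈ NZ U F)
    {u : GK K} (hu : u ∈ U) : x * u ∈ NZ U F := by
  obtain ⟨w, hw, h⟩ := hx
  exact ⟨u⁻¹ * w, mul_mem (inv_mem hu) hw, by rw [mul_assoc, mul_inv_cancel_left]; exact h⟩

lemma NZ_right_iff {U : OpenNormalSubgroup (GK K)} {F : GK K → Ω} {x : GK K}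
    {u : GK K} (hu : u ∈ U) : x * u ∈ NZ U F ↔ x ∈ NZ U F :=
  ⟨fun h => by
    have := NZ_right h (inv_mem hu)
    rwa [mul_inv_cancel_right] at this, fun h => NZ_right h hu⟩

lemma NZ_conj {U : OpenNormalSubgroup (GK K)} {F : GK K → Ω}
    (hcl : ∀ σ τ : GK K, F (τ * σ * τ⁻¹) = F σ) {x : GK K} (hx : x ∈ NZ U F) (τ : GK K) :
    τ * x * τ⁻¹ ∈ NZ U F := by
  obtain ⟨w, hw, h⟩ := hx
  refine ⟨τ * w * τ⁻¹, U.isNormal'.conj_mem w hw τ, ?_⟩
  have e : τ * x * τ⁻¹ * (τ * w * τ⁻¹) = τ * (x * w) * τ⁻¹ := by group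
  rw [e, hcl]
  exact h

variable [TopologicalSpace Ω] [IsTopologicalRing Ω] [T2Space Ω]

/-- Zeros of class functions in the cosets on which they are not identically zero have density
zero. -/
lemma dens_zero_coset (T : Set (GK K → Ω)) (hfg : (Submodule.span Ω T).FG)
    (hT : ∀ g : GK K, ∀ F ∈ T, (fun x => F (g * x)) ∈ Algebra.adjoin Ω T)
    (hc : ∀ F ∈ T, Continuous F) (U : OpenNormalSubgroup (GK K))
    (hU : ∀ F ∈ Algebra.adjoin Ω T, ∀ V : Subgroup (GK K),
      IsOpen (V : Set (GK K)) → (∀ x ∈ V, F x = 0) → ∀ u ∈ U, F u = 0)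
    (F : GK K → Ω) (hF : F ∈ Algebra.adjoin Ω T) (hcl : ∀ σ τ : GK K, F (τ * σ * τ⁻¹) = F σ) :
    Tendsto (dens fun v : HeightOneSpectrum (𝓞 K) => ∃ σ ∈ NZ U F, F σ = 0 ∧ IsFrob v σ) atTop
      (𝓝 0) := by
  classical
  have hUo : IsOpen (U.toSubgroup : Set (GK K)) := U.isOpen'
  haveI hUfin : Finite (GK K ⧸ U.toSubgroup) := Subgroup.quotient_finite_of_isOpen _ hUo
  haveI := Fintype.ofFinite (GK K ⧸ U.toSubgroup)
  let ind : GK K ⧸ U.toSubgroup → GK K → Ω := fun q x =>
    if (QuotientGroup.mk x : GK K ⧸ U.toSubgroup) = q then 1 else 0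
  let T' : Set (GK K → Ω) := T ∪ Set.range ind
  have hTT' : Algebra.adjoin Ω T ≤ Algebra.adjoin Ω T' := Algebra.adjoin_mono Set.subset_union_left
  have hfg' : (Submodule.span Ω T').FG := by
    rw [Submodule.span_union]
    exact hfg.sup (Submodule.fg_span (Set.finite_range ind))
  have hind : ∀ (g : GK K) (q : GK K ⧸ U.toSubgroup), (fun x => ind q (g * x)) =
      ind ((g⁻¹ : GK K) • q) := by
    intro g q
    funext x
    change (if (QuotientGroup.mk (g * x) : GK K ⧸ U.toSubgroup) = q then (1 : Ω) else 0) =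
      (if (QuotientGroup.mk x : GK K ⧸ U.toSubgroup) = (g⁻¹ : GK K) • q then 1 else 0)
    have h1 : (QuotientGroup.mk (g * x) : GK K ⧸ U.toSubgroup) = g • (QuotientGroup.mk x) := rfl
    rw [h1]
    congr 1
    exact propext (by rw [eq_inv_smul_iff])
  have htr' : ∀ g : GK K, ∀ F ∈ T', (fun x => F (g * x)) ∈ Algebra.adjoin Ω T' := by
    rintro g F (hF | ⟨q, rfl⟩)
    · exact hTT' (hT g F hF)
    · rw [hind]
      exact Algebra.subset_adjoin (Or.inr ⟨_, rfl⟩)
  have hc' : ∀ F ∈ T', Continuous F := by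
    rintro F (hF | ⟨q, rfl⟩)
    · exact hc F hF
    · refine IsLocallyConstant.continuous ?_
      refine (IsLocallyConstant.iff_exists_open _).2 fun x => ?_
      refine ⟨(fun y => x⁻¹ * y) ⁻¹' (U.toSubgroup : Set (GK K)),
        hUo.preimage (continuous_mul_left _), by simp, fun y hy => ?_⟩
      have h1 : (QuotientGroup.mk x : GK K ⧸ U.toSubgroup) = QuotientGroup.mk y :=
        QuotientGroup.eq.2 hy
      change (if _ then _ else _) = (if _ then _ else _)
      rw [h1]
  haveI := adjoin_noeth T' hfg'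
  -- the indicator function of the good cosets
  let D : GK K → Ω := fun x => if x ∈ NZ U F then 1 else 0
  have hD : D ∈ Algebra.adjoin Ω T' := by
    have e : D = ∑ q : GK K ⧸ U.toSubgroup,
        (if Quotient.out q ∈ NZ U F then (1 : Ω) else 0) • ind q := by
      funext x
      rw [Finset.sum_apply, Finset.sum_eq_single (QuotientGroup.mk x)]
      · have h2 : x⁻¹ * Quotient.out (QuotientGroup.mk x : GK K ⧸ U.toSubgroup) ∈
            U.toSubgroup := by
          rw [← QuotientGroup.eq]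
          exact (Quotient.out_eq _).symm
        have h3 := NZ_right_iff (F := F) (x := x) h2
        rw [mul_inv_cancel_left] at h3
        simp only [Pi.smul_apply, smul_eq_mul, ind, if_true, mul_one, D]
        by_cases h : x ∈ NZ U F
        · rw [if_pos h, if_pos (h3.2 h)]
        · rw [if_neg h, if_neg fun h' => h (h3.1 h')]
      · intro q _ hq
        simp only [Pi.smul_apply, smul_eq_mul, ind]
        rw [if_neg hq.symm, mul_zero]
      · intro h; exact absurd (Finset.mem_univ _) h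
    rw [e]
    refine Subalgebra.sum_mem _ fun q _ => ?_
    have h5 : ind q ∈ Algebra.adjoin Ω T' := Algebra.subset_adjoin (Or.inr ⟨q, rfl⟩)
    exact Subalgebra.smul_mem _ h5 _
  let F' : GK K → Ω := F * D + (1 - D)
  have hF' : F' ∈ Algebra.adjoin Ω T' :=
    Subalgebra.add_mem _ (Subalgebra.mul_mem _ (hTT' hF) hD)
      (Subalgebra.sub_mem _ (Subalgebra.one_mem _) hD)
  have hFD : ∀ x ∈ NZ U F, F' x = F x := by
    intro x hx
    change F x * (if _ then _ else _) + (1 - (if _ then _ else _)) = F x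
    rw [if_pos hx]
    simp
  have hFn : ∀ x, x ∉ NZ U F → F' x = 1 := by
    intro x hx
    change F x * (if _ then _ else _) + (1 - (if _ then _ else _)) = 1
    rw [if_neg hx]
    simp
  letI : MeasurableSpace (GK K) := borel (GK K)
  haveI : BorelSpace (GK K) := ⟨rfl⟩
  let μ : Measure (GK K) := Measure.haarMeasure ⊤
  haveI : IsProbabilityMeasure μ := ⟨by
    have := Measure.haarMeasure_self (K₀ := (⊤ : TopologicalSpace.PositiveCompacts (GK K)))
    exact this⟩
  have hcont := adjoin_cont T' hc'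
  by_cases h0 : μ {g | F' g = 0} = 0
  · have hcl' : IsClosed {g | F' g = 0} := isClosed_eq (hcont F' hF') continuous_const
    have hmemU : ∀ g ∈ {g | F' g = 0}, g ∈ NZ U F := by
      intro g hg
      by_contra hgU
      have : F' g = 0 := hg
      rw [hFn g hgU] at this
      exact one_ne_zero this
    have h1 := dens_null μ {g | F' g = 0} hcl' (fun σ hσ τ => by
      have hσU := hmemU σ hσ
      have h2 : τ * σ * τ⁻¹ ∈ NZ U F := NZ_conj hcl hσU τ
      have h3 : F' σ = 0 := hσ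
      change F' (τ * σ * τ⁻¹) = 0
      rw [hFD _ h2, hcl, ← hFD _ hσU, h3]) h0
    refine squeeze_zero (fun N => dens_nonneg _ _) (fun N => ?_) h1
    refine dens_mono ?_ N
    rintro v ⟨σ, hσU, hσ0, hσ⟩
    exact ⟨σ, by change F' σ = 0; rw [hFD σ hσU, hσ0], hσ⟩
  · exfalso
    obtain ⟨V, γ, hV, hVγ⟩ := coset_of_pos μ (Algebra.adjoin Ω T') (adjoin_trans T' htr') hcont
      F' hF' h0
    have hγ : γ ∈ NZ U F := by
      by_contra hγ
      have h1 := hVγ 1 (one_mem _)
      rw [mul_one, hFn γ hγ] at h1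
      exact one_ne_zero h1
    obtain ⟨u, hu, huF⟩ := id hγ
    refine huF (hU (fun x => F (γ * x)) (adjoin_trans T hT γ F hF) (V ⊓ U.toSubgroup)
      (hV.inter hUo) ?_ u hu)
    intro x hx
    have h1 := hVγ x hx.1
    rwa [hFD _ (NZ_right hγ hx.2)] at h1

/-- **Density of the complement of finitely many equations.** `s` is a finite set of class functions
which are polynomials in the matrix entries. `P v` means, for the places outside of a set of density
zero, that none of these functions is zero at the Frobenius elements at `v`. Then `P` has a natural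
density, the proportion of the cosets of `U` on which none of the functions is identically zero, and
outside of a set of density zero the Frobenius elements modulo `U` decide if `P` holds. -/
theorem dens_main (T : Set (GK K → Ω)) (hfg : (Submodule.span Ω T).FG)
    (hT : ∀ g : GK K, ∀ F ∈ T, (fun x => F (g * x)) ∈ Algebra.adjoin Ω T)
    (hc : ∀ F ∈ T, Continuous F) (U : OpenNormalSubgroup (GK K))
    (hU : ∀ F ∈ Algebra.adjoin Ω T, ∀ V : Subgroup (GK K),
      IsOpen (V : Set (GK K)) → (∀ x ∈ V, F x = 0) → ∀ u ∈ U, F u = 0)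
    {β : Type} (s : Finset β) (F : β → GK K → Ω) (hF : ∀ j ∈ s, F j ∈ Algebra.adjoin Ω T)
    (hcl : ∀ j ∈ s, ∀ σ τ : GK K, F j (τ * σ * τ⁻¹) = F j σ)
    (P Z : HeightOneSpectrum (𝓞 K) → Prop) (hZ : Tendsto (dens Z) atTop (𝓝 0))
    (h : ∀ v, ¬ Z v → ∀ σ, IsFrob v σ → (P v ↔ ∀ j ∈ s, F j σ ≠ 0)) :
    Tendsto (dens fun v => ¬ (P v ↔ ∃ σ ∈ {x | ∀ j ∈ s, x ∈ NZ U (F j)}, IsFrob v σ)) atTop (𝓝 0) ∧
    Tendsto (dens P) atTop (𝓝 ((((QuotientGroup.mk : GK K → GK K ⧸ U.toSubgroup) ''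
      {x | ∀ j ∈ s, x ∈ NZ U (F j)}).ncard : ℝ) / (Nat.card (GK K ⧸ U.toSubgroup) : ℝ))) := by
  classical
  set D : Set (GK K) := {x | ∀ j ∈ s, x ∈ NZ U (F j)} with hD
  have h1 := dens_biUnion s (fun j (v : HeightOneSpectrum (𝓞 K)) =>
    ∃ σ ∈ NZ U (F j), F j σ = 0 ∧ IsFrob v σ) (fun j hj =>
      dens_zero_coset T hfg hT hc U hU (F j) (hF j hj) (hcl j hj))
  have h2 := h1.add hZ
  rw [add_zero] at h2
  have key : Tendsto (dens fun v => ¬ (P v ↔ ∃ σ ∈ D, IsFrob v σ)) atTop (𝓝 0) := by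
    refine squeeze_zero (fun N => dens_nonneg _ _) (fun N => ?_) h2
    refine le_trans (dens_mono (Q := fun v => (∃ j ∈ s, ∃ σ ∈ NZ U (F j), F j σ = 0 ∧ IsFrob v σ) ∨
      Z v) ?_ N) (dens_or _ _ N)
    intro v hv
    by_contra hcon
    rw [not_or] at hcon
    obtain ⟨hcon1, hcon2⟩ := hcon
    apply hv
    constructor
    · intro hP
      obtain ⟨σ, hσ⟩ := (Pool.Agent.W401.Frob.main K).1 v
      have h3 := (h v hcon2 σ hσ).1 hP
      exact ⟨σ, fun j hj => ⟨1, one_mem _, by rw [mul_one]; exact h3 j hj⟩, hσ⟩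
    · rintro ⟨σ, hσD, hσ⟩
      rw [h v hcon2 σ hσ]
      intro j hj h0
      exact hcon1 ⟨j, hj, σ, hσD j hj, h0, hσ⟩
  refine ⟨key, ?_⟩
  haveI := U.isNormal'
  have h3 := chebK K U.toSubgroup U.isOpen' D
    (fun σ hσ τ j hj => NZ_conj (hcl j hj) (hσ j hj) τ)
    (fun σ hσ u hu j hj => NZ_right (hσ j hj) hu)
  -- comparison
  have h4 : ∀ N, dens (fun v : HeightOneSpectrum (𝓞 K) => ∃ σ ∈ D, IsFrob v σ) N -
      dens (fun v => ¬ (P v ↔ ∃ σ ∈ D, IsFrob v σ)) N ≤ dens P N := by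
    intro N
    rw [sub_le_iff_le_add]
    refine le_trans (dens_mono (Q := fun v => P v ∨ ¬ (P v ↔ ∃ σ ∈ D, IsFrob v σ)) ?_ N)
      (dens_or _ _ N)
    intro v hv
    by_cases hP : P v
    · exact Or.inl hP
    · exact Or.inr fun hiff => hP (hiff.2 hv)
  have h5 : ∀ N, dens P N ≤ dens (fun v : HeightOneSpectrum (𝓞 K) => ∃ σ ∈ D, IsFrob v σ) N +
      dens (fun v => ¬ (P v ↔ ∃ σ ∈ D, IsFrob v σ)) N := by
    intro N
    refine le_trans (dens_mono (Q := fun v => (∃ σ ∈ D, IsFrob v σ) ∨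
      ¬ (P v ↔ ∃ σ ∈ D, IsFrob v σ)) ?_ N) (dens_or _ _ N)
    intro v hv
    by_cases hP : ∃ σ ∈ D, IsFrob v σ
    · exact Or.inl hP
    · exact Or.inr fun hiff => hP (hiff.1 hv)
  have h6 := h3.sub key
  have h7 := h3.add key
  rw [sub_zero] at h6
  rw [add_zero] at h7
  exact tendsto_of_tendsto_of_tendsto_of_le_of_le h6 h7 h4 h5

end

end Pool.Agent.V7H31.OD
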