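import Pool.Agent.V7H31.OD.Lin

/-!
# Congruence subgroups of `ℓ`-adic groups are connected
-/

set_option autoImplicit false
set_option linter.all false

namespace Pool.Agent.V7H31.OD

open Polynomial

section padic

variable {ℓ : ℕ} [hp : Fact ℓ.Prime]

lemma inv_lt_one : ((ℓ : ℝ))⁻¹ < 1 :=
  inv_lt_one_of_one_lt₀ (by exact_mod_cast hp.out.one_lt)

lemma nsub (x y : PadicAlgCl ℓ) : ‖x - y‖ ≤ max ‖x‖ ‖y‖ := by
  have h := IsUltrametricDist.norm_add_le_max x (-y)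
  rwa [← sub_eq_add_neg, norm_neg] at h

lemma norm_le_one_of_ball {a : PadicAlgCl ℓ} (ha : ‖a - 1‖ ≤ (ℓ : ℝ)⁻¹) : ‖a‖ ≤ 1 := by
  have h := IsUltrametricDist.norm_add_le_max (a - 1) (1 : PadicAlgCl ℓ)
  rw [sub_add_cancel, norm_one] at h
  exact h.trans (max_le (ha.trans inv_lt_one.le) le_rfl)

lemma norm_eq_one_of_ball {a : PadicAlgCl ℓ} (ha : ‖a - 1‖ ≤ (ℓ : ℝ)⁻¹) : ‖a‖ = 1 := by
  refine le_antisymm (norm_le_one_of_ball ha) ?_
  by_contra hlt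
  push Not at hlt
  have h := nsub a (a - 1)
  rw [sub_sub_cancel, norm_one] at h
  exact absurd h (not_le.2 (max_lt hlt (ha.trans_lt inv_lt_one)))

/-- The closed ball of radius `1 / ℓ` around `1`. -/
noncomputable def ball (ℓ : ℕ) [Fact ℓ.Prime] : Submonoid (PadicAlgCl ℓ) where
  carrier := {a | ‖a - 1‖ ≤ (ℓ : ℝ)⁻¹}
  one_mem' := by simp
  mul_mem' := by
    intro a b ha hb
    change ‖a * b - 1‖ ≤ _
    have e : a * b - 1 = (a - 1) * b + (b - 1) := by ring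
    rw [e]
    refine (IsUltrametricDist.norm_add_le_max _ _).trans (max_le ?_ hb)
    rw [norm_mul, norm_eq_one_of_ball hb, mul_one]
    exact ha

lemma mem_ball {a : PadicAlgCl ℓ} : a ∈ ball ℓ ↔ ‖a - 1‖ ≤ (ℓ : ℝ)⁻¹ := Iff.rfl

lemma ball_ne {a : PadicAlgCl ℓ} (ha : a ∈ ball ℓ) : a ≠ 0 := by
  intro h
  have := norm_eq_one_of_ball ha
  rw [h, norm_zero] at this
  exact zero_ne_one this

lemma norm_prime {q : ℕ} (hq : q.Prime) :
    (q ≠ ℓ → ‖(q : PadicAlgCl ℓ)‖ = 1) ∧ ‖(ℓ : PadicAlgCl ℓ)‖ = (ℓ : ℝ)⁻¹ := by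
  have h : ∀ n : ℕ, ‖(n : PadicAlgCl ℓ)‖ = ‖(n : ℚ_[ℓ])‖ := by
    intro n
    have h4 : ((n : ℕ) : PadicAlgCl ℓ) = algebraMap ℚ_[ℓ] (PadicAlgCl ℓ) ((n : ℕ) : ℚ_[ℓ]) := by
      simp
    rw [h4, PadicAlgCl.norm_extends]
  refine ⟨fun hne => ?_, ?_⟩
  · rw [h, Padic.norm_natCast_eq_one_iff]
    exact (Nat.coprime_primes hp.out hq).2 (Ne.symm hne)
  · rw [h, Padic.norm_p]

/-- A root of unity in the ball is one, if `ℓ` is odd. -/
lemma ball_root (hℓ : ℓ ≠ 2) {z : PadicAlgCl ℓ} (hz : z ∈ ball ℓ) {m : ℕ} (hm : 0 < m)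
    (h : z ^ m = 1) : z = 1 := by
  by_contra hne
  have h1 : orderOf z ≠ 1 := fun h => hne (orderOf_eq_one_iff.1 h)
  have h0 : 0 < orderOf z := orderOf_pos_iff.2 (isOfFinOrder_iff_pow_eq_one.2 ⟨m, hm, h⟩)
  obtain ⟨q, hq, hqd⟩ := Nat.exists_prime_and_dvd h1
  obtain ⟨k, hk⟩ := hqd
  have hk0 : 0 < k := by
    rcases Nat.eq_zero_or_pos k with h | h
    · rw [h, mul_zero] at hk; omega
    · exact h
  have hw : orderOf (z ^ k) = q := by
    rw [orderOf_pow_of_dvd hk0.ne' ⟨q, by rw [hk, mul_comm]⟩, hk, Nat.mul_div_cancel _ hk0]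
  have hprim : IsPrimitiveRoot (z ^ k) ((q - 1) + 1) := by
    rw [Nat.sub_add_cancel hq.one_lt.le, ← hw]
    exact IsPrimitiveRoot.orderOf _
  have hprod := hprim.prod_one_sub_pow_eq_order
  have hqm : ‖(q : PadicAlgCl ℓ)‖ ≤ ((ℓ : ℝ)⁻¹) ^ (q - 1) := by
    have e : ((q - 1 : ℕ) : PadicAlgCl ℓ) + 1 = (q : PadicAlgCl ℓ) := by
      rw [← Nat.cast_add_one, Nat.sub_add_cancel hq.one_lt.le]
    rw [← e, ← hprod, norm_prod]
    calc ∏ j ∈ Finset.range (q - 1), ‖1 - (z ^ k) ^ (j + 1)‖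
        ≤ ∏ j ∈ Finset.range (q - 1), (ℓ : ℝ)⁻¹ := by
          refine Finset.prod_le_prod (fun _ _ => norm_nonneg _) fun j _ => ?_
          rw [norm_sub_rev]
          exact mem_ball.1 (Submonoid.pow_mem _ (Submonoid.pow_mem _ hz k) _)
      _ = _ := by rw [Finset.prod_const, Finset.card_range]
  have hl1 : (1 : ℝ) < ℓ := by exact_mod_cast hp.out.one_lt
  have hi0 : (0 : ℝ) < (ℓ : ℝ)⁻¹ := by positivity
  by_cases hql : q = ℓ
  · subst hql
    rw [(norm_prime hq).2] at hqm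
    have h3 : 3 ≤ q := by
      have := hq.two_le
      omega
    have h4 : ((q : ℝ)⁻¹) ^ (q - 1) < ((q : ℝ)⁻¹) ^ 1 :=
      pow_lt_pow_right_of_lt_one₀ hi0 inv_lt_one (by omega)
    rw [pow_one] at h4
    exact absurd hqm (not_le.2 h4)
  · rw [(norm_prime hq).1 hql] at hqm
    have h4 : ((ℓ : ℝ)⁻¹) ^ (q - 1) < 1 :=
      pow_lt_one₀ hi0.le inv_lt_one (by have := hq.two_le; omega)
    exact absurd hqm (not_le.2 h4)

lemma ball_inj (hℓ : ℓ ≠ 2) {m : ℕ} (hm : 0 < m) : ∀ a ∈ ball ℓ, ∀ b ∈ ball ℓ,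
    a ^ m = b ^ m → a = b := by
  intro a ha b hb h
  have hb0 := ball_ne hb
  have h1 : a / b ∈ ball ℓ := by
    rw [mem_ball]
    have e : a / b - 1 = (a - b) / b := by field_simp
    rw [e, norm_div, norm_eq_one_of_ball hb, div_one]
    have e2 : a - b = (a - 1) - (b - 1) := by ring
    rw [e2]
    exact (nsub _ _).trans (max_le ha hb)
  have h2 : (a / b) ^ m = 1 := by
    rw [div_pow, h, div_self (pow_ne_zero _ hb0)]
  have h3 := ball_root hℓ h1 hm h2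
  rwa [div_eq_one_iff_eq hb0] at h3

/-- Elements integral over `ℤ_ℓ`. -/
lemma norm_le_of_int {z : PadicAlgCl ℓ} (f : ℤ_[ℓ][X]) (hf : f.Monic)
    (h0 : (f.map (algebraMap ℤ_[ℓ] (PadicAlgCl ℓ))).eval z = 0) : ‖z‖ ≤ 1 := by
  by_contra hlt
  rw [not_le] at hlt
  have hcoef : ∀ i, ‖algebraMap ℤ_[ℓ] (PadicAlgCl ℓ) (f.coeff i)‖ ≤ 1 := by
    intro i
    have e : algebraMap ℤ_[ℓ] (PadicAlgCl ℓ) (f.coeff i) =
        algebraMap ℚ_[ℓ] (PadicAlgCl ℓ) ((f.coeff i : ℤ_[ℓ]) : ℚ_[ℓ]) := rfl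
    rw [e, PadicAlgCl.norm_extends]
    exact PadicInt.norm_le_one _
  have h1 : z ^ f.natDegree = - ∑ i ∈ Finset.range f.natDegree,
      algebraMap ℤ_[ℓ] (PadicAlgCl ℓ) (f.coeff i) * z ^ i := by
    rw [eval_map, eval₂_eq_sum_range, Finset.sum_range_succ, hf.coeff_natDegree, map_one,
      one_mul] at h0
    rw [eq_neg_iff_add_eq_zero, add_comm]
    exact h0
  have hpos : (0 : ℝ) < ‖z ^ f.natDegree‖ := by
    rw [norm_pow]
    exact pow_pos (zero_lt_one.trans hlt) _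
  have h2 : ‖z ^ f.natDegree‖ < ‖z ^ f.natDegree‖ := by
    conv_lhs => rw [h1, norm_neg]
    rcases Finset.eq_empty_or_nonempty (Finset.range f.natDegree) with hem | hne
    · rw [hem, Finset.sum_empty, norm_zero]
      exact hpos
    · obtain ⟨i, hi, hmax⟩ := IsUltrametricDist.exists_norm_finsetSum_le_of_nonempty hne
        (fun i => algebraMap ℤ_[ℓ] (PadicAlgCl ℓ) (f.coeff i) * z ^ i)
      refine hmax.trans_lt ?_
      rw [norm_mul, norm_pow, norm_pow]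
      have hi' := Finset.mem_range.1 hi
      calc _ ≤ 1 * ‖z‖ ^ i := mul_le_mul_of_nonneg_right (hcoef i) (by positivity)
        _ = ‖z‖ ^ i := one_mul _
        _ < ‖z‖ ^ f.natDegree := pow_lt_pow_right₀ hlt hi'
  exact lt_irrefl _ h2

/-- The embedding of the matrices over `ℤ_ℓ`. -/
noncomputable def emb (ℓ : ℕ) [Fact ℓ.Prime] (b : ℕ) :
    Matrix (Fin b) (Fin b) ℤ_[ℓ] →+* Matrix (Fin b) (Fin b) (PadicAlgCl ℓ) :=
  (algebraMap ℤ_[ℓ] (PadicAlgCl ℓ)).mapMatrix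

/-- Eigenvalues of matrices congruent to one. -/
lemma root_ball {b : ℕ} (M Y : Matrix (Fin b) (Fin b) ℤ_[ℓ]) (h : M = 1 + (ℓ : ℤ_[ℓ]) • Y) :
    ∀ a ∈ (emb ℓ b M).charpoly.roots, a ∈ ball ℓ := by
  intro a ha
  have hl0 : (ℓ : PadicAlgCl ℓ) ≠ 0 := by exact_mod_cast hp.out.ne_zero
  rw [mem_roots (Matrix.charpoly_monic _).ne_zero, IsRoot, Matrix.eval_charpoly] at ha
  set y : PadicAlgCl ℓ := (a - 1) / ℓ with hy
  have hay : a = 1 + ℓ * y := by rw [hy]; field_simp; ring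
  have e : Matrix.scalar (Fin b) a - emb ℓ b M =
      (ℓ : PadicAlgCl ℓ) • (Matrix.scalar (Fin b) y - emb ℓ b Y) := by
    rw [h, map_add, map_one]
    have e2 : emb ℓ b ((ℓ : ℤ_[ℓ]) • Y) = (ℓ : PadicAlgCl ℓ) • emb ℓ b Y := by
      ext i j
      simp [emb]
    rw [e2, hay]
    ext i j
    by_cases hij : i = j
    · subst hij
      simp [Matrix.sub_apply, Matrix.add_apply, Matrix.smul_apply]
      ring
    · simp [Matrix.sub_apply, Matrix.add_apply, Matrix.smul_apply, Matrix.diagonal_apply_ne _ hij,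
        Matrix.one_apply_ne hij]
  rw [e, Matrix.det_smul, mul_eq_zero] at ha
  have h1 : (Matrix.scalar (Fin b) y - emb ℓ b Y).det = 0 :=
    ha.resolve_left (pow_ne_zero _ hl0)
  have h2 : (Y.charpoly.map (algebraMap ℤ_[ℓ] (PadicAlgCl ℓ))).eval y = 0 := by
    rw [← Matrix.charpoly_map, Matrix.eval_charpoly]
    exact h1
  have h3 := norm_le_of_int _ (Matrix.charpoly_monic Y) h2
  rw [mem_ball, hay, add_sub_cancel_left, norm_mul, (norm_prime hp.out).2]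
  have : (0 : ℝ) ≤ (ℓ : ℝ)⁻¹ := by positivity
  nlinarith

/-- **Connectedness of the congruence subgroup.** `ρ i` are representations of the group `G` by
matrices over `ℤ_ℓ`, `ℓ` odd. If a polynomial in the matrix entries vanishes on a coset `γ V` of a
subgroup of finite index, where `γ` is congruent to `1` modulo `ℓ`, then it vanishes on the subgroup
of all elements congruent to `1`. -/
theorem conn (hℓ : ℓ ≠ 2) {G ι : Type*} [Group G] (b : ι → ℕ)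
    (ρ : ∀ i, G →* Matrix (Fin (b i)) (Fin (b i)) ℤ_[ℓ])
    (U : Subgroup G) (hU : ∀ u ∈ U, ∀ i, ∃ Y, ρ i u = 1 + (ℓ : ℤ_[ℓ]) • Y)
    (F : G → PadicAlgCl ℓ)
    (hF : F ∈ Algebra.adjoin (PadicAlgCl ℓ)
      {f : G → PadicAlgCl ℓ | ∃ i a c, f = fun x => algebraMap ℤ_[ℓ] (PadicAlgCl ℓ) (ρ i x a c)})
    (V : Subgroup G) (hV : V.index ≠ 0) (h : ∀ x ∈ V, F x = 0) : ∀ u ∈ U, F u = 0 := by
  intro u hu
  obtain ⟨m, hm0, -, hm⟩ := Subgroup.exists_pow_mem_of_index_ne_zero hV u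
  refine vanish u (ball ℓ) (fun a ha => ball_ne ha) m (by exact_mod_cast hm0.ne')
    (ball_inj hℓ hm0) F ?_ fun k => h _ (by rw [pow_mul]; exact V.pow_mem hm k)
  refine (Algebra.adjoin_le ?_ : _ ≤ Kil u (ball ℓ)) hF
  rintro f ⟨i, a, c, rfl⟩
  obtain ⟨Y, hY⟩ := hU u hu i
  exact entry_Kil ((emb ℓ (b i)).toMonoidHom.comp (ρ i)) u (ball ℓ) (root_ball _ Y hY) a c

end padic

end Pool.Agent.V7H31.OD
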