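import Pool.Agent.V7H31.OD.Defs
import Pool.Agent.V7H31.OD.Gen
import Pool.Agent.V7H31.OD.Pad

/-!
# Natural density of ordinary reduction: hyperkähler varieties
-/

set_option autoImplicit false
set_option linter.all false

namespace Pool.Agent.V7H31.OD

open Module Polynomial NumberField IsDedekindDomain Filter Topology
open Pool.Agent.W401.Cheb Pool.Agent.W528.Ord Pool.Agent.N184.HK

section

variable {K : Type} [Field K] [NumberField K] {ℓ : ℕ} [hp : Fact ℓ.Prime]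

/-- At an ordinary place of degree one the trace of `H²(1)` is not an integer. -/
lemma not_int (X : Hyperkaehler K ℓ) {v : HeightOneSpectrum (𝓞 K)} (hv : v ∉ X.bad)
    (hord : X.OrdinaryIn v hv 2) {σ : GK K}
    (hσ : IsFrob v σ) (k : ℤ) : X.R.tr σ ≠ (k : ℚ_[ℓ]) := by
  intro h
  have h1 := trace_l X hv hσ
  rw [h] at h1
  have h2 : X.t v = (Ideal.absNorm v.asIdeal : ℤ) * k := by
    have : ((X.t v : ℤ) : ℚ_[ℓ]) = (((Ideal.absNorm v.asIdeal : ℤ) * k : ℤ) : ℚ_[ℓ]) := by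
      rw [← h1]; push_cast; ring
    exact_mod_cast this
  set P := X.place v hv with hP
  have h3 : 0 < P.val ((X.t v : ℤ) : P.C) := by
    rw [h2]
    push_cast
    rw [P.val.map_mul, ← X.norm_eq v hv, P.norm]
    exact lt_of_lt_of_le zero_lt_one (le_add_of_nonneg_right (val_int _ k))
  rw [← trace_p X hv, tr_roots, Multiset.map_id'] at h3
  have h4 := P.slopes 2 X.two_le
  have hns : P.ns 2 = X.hs 2 := hord
  rw [hns] at h4
  have hb := three_le X hv
  let z : Fin (X.b 2) := ⟨0, by omega⟩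
  have hz : X.hs 2 z = 0 := by rw [X.hodge, if_pos rfl]
  have huniv : (Finset.univ : Finset (Fin (X.b 2))).val = z ::ₘ (Finset.univ.erase z).val := by
    rw [Finset.erase_val]
    exact (Multiset.cons_erase (Finset.mem_univ z)).symm
  rw [huniv, Multiset.map_cons, hz] at h4
  set m := (P.F.φ 2).toLinearMap.charpoly.roots with hm
  have h5 : (((0 : ℚ)) : WithTop ℚ) ∈ m.map (fun e => P.val e) := by
    rw [h4]; exact Multiset.mem_cons_self _ _
  obtain ⟨e, he, hev⟩ := Multiset.mem_map.1 h5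
  obtain ⟨m', hm'⟩ := Multiset.exists_cons_of_mem he
  rw [hm', Multiset.map_cons, hev, Multiset.cons_inj_right] at h4
  have h6 : ∀ x ∈ m', 0 < P.val x := by
    intro x hx
    have h7 := Multiset.mem_map_of_mem (fun e => P.val e) hx
    rw [h4] at h7
    obtain ⟨j, hj, hjx⟩ := Multiset.mem_map.1 h7
    have hjz : j ≠ z := (Finset.mem_erase.1 (Finset.mem_def.2 hj)).1
    have hj0 : (j : ℕ) ≠ 0 := fun h0 => hjz (Fin.ext h0)
    rw [← hjx, X.hodge, if_neg hj0]
    split_ifs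
    · exact_mod_cast (by norm_num : (0 : ℚ) < 2)
    · exact_mod_cast (by norm_num : (0 : ℚ) < 1)
  have h8 : ∀ s : Multiset P.C, (∀ x ∈ s, 0 < P.val x) → 0 < P.val s.sum := by
    intro s
    induction s using Multiset.induction_on with
    | empty => intro _; simp
    | cons a s ih =>
      intro hs
      rw [Multiset.sum_cons]
      exact (lt_min (hs a (Multiset.mem_cons_self a s))
        (ih fun z hz => hs z (Multiset.mem_cons_of_mem hz))).trans_le (P.val.map_add _ _)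
  have h9 : 0 < P.val m'.sum := h8 m' h6
  rw [hm', Multiset.sum_cons] at h3
  have h10 : 0 < P.val e := by
    have e1 : e = (e + m'.sum) - m'.sum := by ring
    rw [e1]
    exact (lt_min h3 h9).trans_le (P.val.map_sub _ _)
  rw [hev] at h10
  exact lt_irrefl _ (by exact_mod_cast h10)

end

section

variable {K : Type} [Field K] [NumberField K] {ℓ : ℕ} [hp : Fact ℓ.Prime] {ι : Type} [Fintype ι]
  (X : ι → Hyperkaehler K ℓ) (b : ι → ℕ) (L : ∀ i, Lattice (X i).R (b i))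

/-- the embedding of the `ℓ`-adic integers -/
noncomputable abbrev aM (ℓ : ℕ) [Fact ℓ.Prime] : ℤ_[ℓ] →+* PadicAlgCl ℓ :=
  algebraMap ℤ_[ℓ] (PadicAlgCl ℓ)

lemma aM_cont : Continuous (aM ℓ) := by
  have e : (aM ℓ : ℤ_[ℓ] → PadicAlgCl ℓ) =
      (algebraMap ℚ_[ℓ] (PadicAlgCl ℓ)) ∘ (fun x : ℤ_[ℓ] => (x : ℚ_[ℓ])) := rfl
  rw [e]
  exact (algebraMapCLM ℚ_[ℓ] (PadicAlgCl ℓ)).continuous.comp continuous_subtype_val

/-- the matrix entries -/
def TT : Set (GK K → PadicAlgCl ℓ) :=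
  {f | ∃ i a c, f = fun x => aM ℓ ((L i).mat x a c)}

lemma TT_fg : (Submodule.span (PadicAlgCl ℓ) (TT X b L)).FG := by
  refine Submodule.fg_span ?_
  have h1 : TT X b L ⊆ ⋃ i, ⋃ a, ⋃ c, {fun x => aM ℓ ((L i).mat x a c)} := by
    rintro F ⟨i, a, c, rfl⟩
    exact Set.mem_iUnion.2 ⟨i, Set.mem_iUnion.2 ⟨a, Set.mem_iUnion.2 ⟨c, rfl⟩⟩⟩
  refine Set.Finite.subset ?_ h1
  exact Set.finite_iUnion fun a => Set.finite_iUnion fun i => Set.finite_iUnion fun j =>
    Set.finite_singleton _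

lemma TT_trans (g : GK K) (F : GK K → PadicAlgCl ℓ) (hF : F ∈ TT X b L) :
    (fun x => F (g * x)) ∈ Algebra.adjoin (PadicAlgCl ℓ) (TT X b L) := by
  obtain ⟨i, a, c, rfl⟩ := hF
  have e : (fun x => (fun x => aM ℓ ((L i).mat x a c)) (g * x)) =
      ∑ k, aM ℓ ((L i).mat g a k) • fun x => aM ℓ ((L i).mat x k c) := by
    funext x
    rw [Finset.sum_apply]
    change aM ℓ ((L i).mat (g * x) a c) = _
    rw [map_mul, Matrix.mul_apply, map_sum]
    refine Finset.sum_congr rfl fun k _ => ?_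
    rw [map_mul, Pi.smul_apply, smul_eq_mul]
  rw [e]
  refine Subalgebra.sum_mem _ fun k _ => ?_
  have h5 : (fun x => aM ℓ ((L i).mat x k c)) ∈ Algebra.adjoin (PadicAlgCl ℓ) (TT X b L) :=
    Algebra.subset_adjoin ⟨i, k, c, rfl⟩
  exact Subalgebra.smul_mem _ h5 _

lemma TT_cont (F : GK K → PadicAlgCl ℓ) (hF : F ∈ TT X b L) : Continuous F := by
  obtain ⟨i, a, c, rfl⟩ := hF
  exact aM_cont.comp ((L i).cont a c)

/-- the reduction modulo `ℓ` -/
noncomputable def Rd : GK K →* ∀ i, GL (Fin (b i)) (ZMod ℓ) :=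
  Pi.monoidHom fun i => (L i).red

lemma open_fibre (z : ZMod ℓ) : IsOpen {y : ℤ_[ℓ] | PadicInt.toZMod y = z} := by
  rw [Metric.isOpen_iff]
  intro y hy
  refine ⟨1, one_pos, fun y' hy' => ?_⟩
  rw [Metric.mem_ball, dist_eq_norm] at hy'
  have h1 : y' - y ∈ RingHom.ker (PadicInt.toZMod (p := ℓ)) := by
    rw [PadicInt.ker_toZMod, PadicInt.maximalIdeal_eq_span_p, Ideal.mem_span_singleton]
    exact (PadicInt.norm_lt_one_iff_dvd _).1 hy'
  rw [RingHom.mem_ker, map_sub, sub_eq_zero] at h1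
  change PadicInt.toZMod y' = z
  rw [h1]
  exact hy

lemma mem_ker_iff (σ : GK K) : σ ∈ (Rd X b L).ker ↔
    ∀ i a c, PadicInt.toZMod ((L i).mat σ a c) = (1 : Matrix (Fin (b i)) (Fin (b i)) (ZMod ℓ)) a c := by
  rw [MonoidHom.mem_ker]
  constructor
  · intro h i a c
    have h1 := congrFun h i
    have h2 := congrArg (fun g : GL (Fin (b i)) (ZMod ℓ) => (g : Matrix _ _ (ZMod ℓ)) a c) h1
    exact h2
  · intro h
    funext i
    refine Units.ext ?_
    ext a c
    exact h i a c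

/-- the kernel of the reduction modulo `ℓ` -/
noncomputable def UU : OpenNormalSubgroup (GK K) where
  toSubgroup := (Rd X b L).ker
  isOpen' := by
    have e : ((Rd X b L).ker : Set (GK K)) = ⋂ i, ⋂ a, ⋂ c, {σ | PadicInt.toZMod ((L i).mat σ a c) =
        (1 : Matrix (Fin (b i)) (Fin (b i)) (ZMod ℓ)) a c} := by
      ext σ
      simp only [Set.mem_iInter, Set.mem_setOf_eq]
      exact mem_ker_iff X b L σ
    change IsOpen ((Rd X b L).ker : Set (GK K))
    rw [e]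
    exact isOpen_iInter_of_finite fun i => isOpen_iInter_of_finite fun a =>
      isOpen_iInter_of_finite fun c => (open_fibre _).preimage ((L i).cont a c)
  isNormal' := inferInstanceAs ((Rd X b L).ker.Normal)

lemma mem_UU (σ : GK K) : σ ∈ UU X b L ↔ Rd X b L σ = 1 := Iff.rfl

lemma UU_cong (u : GK K) (hu : u ∈ (Rd X b L).ker) (i : ι) :
    ∃ Y, (L i).mat u = 1 + (ℓ : ℤ_[ℓ]) • Y := by
  have h1 : ∀ a c, ∃ y : ℤ_[ℓ], (L i).mat u a c - (1 : Matrix _ _ ℤ_[ℓ]) a c = ℓ * y := by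
    intro a c
    have h2 := (mem_ker_iff X b L u).1 hu i a c
    have h3 : (L i).mat u a c - (1 : Matrix _ _ ℤ_[ℓ]) a c ∈
        RingHom.ker (PadicInt.toZMod (p := ℓ)) := by
      rw [RingHom.mem_ker, map_sub, h2, sub_eq_zero]
      by_cases hac : a = c
      · subst hac; simp
      · rw [Matrix.one_apply_ne hac, Matrix.one_apply_ne hac, map_zero]
    rw [PadicInt.ker_toZMod, PadicInt.maximalIdeal_eq_span_p, Ideal.mem_span_singleton] at h3
    exact h3
  choose Y hY using h1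
  refine ⟨Matrix.of Y, ?_⟩
  ext a c
  rw [Matrix.add_apply, Matrix.smul_apply, Matrix.of_apply, smul_eq_mul, ← hY a c]
  ring

/-- the class functions -/
noncomputable def FF (j : ι × ℤ) (σ : GK K) : PadicAlgCl ℓ :=
  aM ℓ ((L j.1).mat σ).trace - (j.2 : PadicAlgCl ℓ)

lemma FF_mem (j : ι × ℤ) : FF X b L j ∈ Algebra.adjoin (PadicAlgCl ℓ) (TT X b L) := by
  have e : FF X b L j = (∑ a, fun x => aM ℓ ((L j.1).mat x a a)) -
      algebraMap (PadicAlgCl ℓ) (GK K → PadicAlgCl ℓ) (j.2 : PadicAlgCl ℓ) := by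
    funext x
    rw [Pi.sub_apply, Finset.sum_apply]
    change aM ℓ ((L j.1).mat x).trace - _ = _
    rw [Matrix.trace, map_sum]
    rfl
  rw [e]
  refine Subalgebra.sub_mem _ (Subalgebra.sum_mem _ fun a _ => ?_) (Subalgebra.algebraMap_mem _ _)
  exact Algebra.subset_adjoin ⟨j.1, a, a, rfl⟩

lemma FF_conj (j : ι × ℤ) (σ τ : GK K) : FF X b L j (τ * σ * τ⁻¹) = FF X b L j σ := by
  unfold FF
  rw [map_mul, Matrix.trace_mul_comm, ← map_mul, inv_mul_cancel_left]

lemma tr_eq (i : ι) (σ : GK K) : (X i).R.tr σ = (((L i).mat σ).trace : ℚ_[ℓ]) := by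
  rw [GalRep.tr, LinearMap.trace_eq_matrix_trace ℚ_[ℓ] (L i).basis, Matrix.trace, Matrix.trace]
  have e : (((∑ a, ((L i).mat σ).diag a : ℤ_[ℓ])) : ℚ_[ℓ]) =
      ∑ a, ((((L i).mat σ).diag a : ℤ_[ℓ]) : ℚ_[ℓ]) :=
    map_sum (PadicInt.Coe.ringHom (p := ℓ)) _ _
  rw [e]
  exact Finset.sum_congr rfl fun a _ => (L i).eq σ a a

lemma FF_zero_iff (i : ι) (k : ℤ) (σ : GK K) : FF X b L (i, k) σ = 0 ↔
    (X i).R.tr σ = (k : ℚ_[ℓ]) := by
  rw [tr_eq X b L, FF, sub_eq_zero]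
  have e : (k : PadicAlgCl ℓ) = algebraMap ℚ_[ℓ] (PadicAlgCl ℓ) (k : ℚ_[ℓ]) := by simp
  rw [e]
  change algebraMap ℚ_[ℓ] (PadicAlgCl ℓ) (((L i).mat σ).trace : ℚ_[ℓ]) = _ ↔ _
  exact (algebraMap ℚ_[ℓ] (PadicAlgCl ℓ)).injective.eq_iff

/-- the good elements -/
def DD (s : Finset (ι × ℤ)) : Set (GK K) := {x | ∀ j ∈ s, x ∈ NZ (UU X b L) (FF X b L j)}

lemma one_mem_DD (s : Finset (ι × ℤ)) : (1 : GK K) ∈ DD X b L s := by
  rintro ⟨i, k⟩ -
  by_contra hcon
  have h1 : ∀ u ∈ UU X b L, (X i).R.tr u = (k : ℚ_[ℓ]) := by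
    intro u hu
    by_contra hne
    exact hcon ⟨u, hu, by rw [one_mul]; exact fun h => hne ((FF_zero_iff X b L i k u).1 h)⟩
  obtain ⟨σ, hσ, hne⟩ := (X i).nonconst ((UU X b L).toSubgroup : Set (GK K)) (UU X b L).isOpen'
    (one_mem _)
  exact hne ((h1 σ hσ).trans (h1 1 (one_mem _)).symm)

/-- **The theorem for one prime `ℓ`.** -/
theorem main_one (hℓ : ℓ ≠ 2) (hb : ∀ i, (X i).b 2 = b i) :
    ∃ C : Set (∀ i, GL (Fin (b i)) (ZMod ℓ)), C ⊆ (Rd X b L).range ∧ 1 ∈ C ∧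
      (∀ c ∈ C, ∀ g ∈ (Rd X b L).range, g * c * g⁻¹ ∈ C) ∧
      Tendsto (dens fun v => ¬ ((∀ i, Ord (X i) v) ↔ ∃ σ, IsFrob v σ ∧ Rd X b L σ ∈ C))
        atTop (𝓝 0) ∧
      Tendsto (dens fun v => ∀ i, Ord (X i) v) atTop
        (𝓝 ((C.ncard : ℝ) / (Nat.card (Rd X b L).range : ℝ))) := by
  classical
  set B : ℕ := ∑ i, b i with hB
  let s : Finset (ι × ℤ) := Finset.univ ×ˢ Finset.Icc (-(B : ℤ)) B
  have hU : ∀ F ∈ Algebra.adjoin (PadicAlgCl ℓ) (TT X b L), ∀ V : Subgroup (GK K),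
      IsOpen (V : Set (GK K)) → (∀ x ∈ V, F x = 0) → ∀ u ∈ UU X b L, F u = 0 := by
    intro F hF V hV h u hu
    haveI : Finite (GK K ⧸ V) := Subgroup.quotient_finite_of_isOpen _ hV
    have hVi : V.index ≠ 0 := (Subgroup.finiteIndex_of_finite_quotient (H := V)).index_ne_zero
    exact conn hℓ b (fun i => (L i).mat) (Rd X b L).ker (fun u hu i => UU_cong X b L u hu i) F hF V
      hVi h u hu
  let Z : HeightOneSpectrum (𝓞 K) → Prop := fun v =>
    ¬ (Ideal.absNorm v.asIdeal).Prime ∨ v ∈ ⋃ i, (X i).bad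
  have hZ : Tendsto (dens Z) atTop (𝓝 0) := by
    have h2 := (dens_not_prime (K := K)).add
      (dens_finite (fun v => v ∈ ⋃ i, (X i).bad) (Set.finite_iUnion fun i => (X i).finite))
    rw [add_zero] at h2
    exact squeeze_zero (fun N => dens_nonneg _ _) (fun N => dens_or _ _ N) h2
  have hP : ∀ v, ¬ Z v → ∀ σ, IsFrob v σ →
      ((∀ i, Ord (X i) v) ↔ ∀ j ∈ s, FF X b L j σ ≠ 0) := by
    intro v hv σ hσ
    have hv' : (Ideal.absNorm v.asIdeal).Prime ∧ v ∉ ⋃ i, (X i).bad := by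
      by_contra hcon
      apply hv
      by_cases h1 : (Ideal.absNorm v.asIdeal).Prime
      · exact Or.inr (by_contra fun h2 => hcon ⟨h1, h2⟩)
      · exact Or.inl h1
    obtain ⟨hprime, hbad⟩ := hv'
    rw [Set.mem_iUnion, not_exists] at hbad
    constructor
    · rintro h ⟨i, k⟩ - h0
      obtain ⟨hvi, ho⟩ := h i
      exact not_int (X i) hvi (ho 2 (X i).two_le) hσ k ((FF_zero_iff X b L i k σ).1 h0)
    · intro h i
      refine ⟨hbad i, (ordinary_iff (X i) (hbad i)).1 ?_⟩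
      by_contra hno
      obtain ⟨k, hk, ht⟩ := trace_int (X i) (hbad i) hprime hno hσ
      refine h (i, k) ?_ ((FF_zero_iff X b L i k σ).2 ht)
      simp only [s, Finset.mem_product, Finset.mem_univ, true_and, Finset.mem_Icc]
      have hbi : b i ≤ B := Finset.single_le_sum (f := b) (fun _ _ => Nat.zero_le _)
        (Finset.mem_univ i)
      rw [hb i] at hk
      have h3 : |k| ≤ (B : ℤ) := hk.trans (by exact_mod_cast hbi)
      exact abs_le.1 h3
  obtain ⟨m1, m2⟩ := dens_main (TT X b L) (TT_fg X b L) (TT_trans X b L) (TT_cont X b L)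
    (UU X b L) hU s (FF X b L) (fun j _ => FF_mem X b L j) (fun j _ => FF_conj X b L j)
    (fun v => ∀ i, Ord (X i) v) Z hZ hP
  have hDD : {x : GK K | ∀ j ∈ s, x ∈ NZ (UU X b L) (FF X b L j)} = DD X b L s := rfl
  rw [hDD] at m1 m2
  have hright : ∀ x ∈ DD X b L s, ∀ y, Rd X b L y = Rd X b L x → y ∈ DD X b L s := by
    intro x hx y hxy j hj
    have hu : x⁻¹ * y ∈ UU X b L := by
      rw [mem_UU, map_mul, map_inv, hxy, inv_mul_cancel]
    have h3 := NZ_right (hx j hj) hu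
    rwa [mul_inv_cancel_left] at h3
  refine ⟨Rd X b L '' DD X b L s, ?_, ⟨1, one_mem_DD X b L s, map_one _⟩, ?_, ?_, ?_⟩
  · rintro _ ⟨x, -, rfl⟩
    exact ⟨x, rfl⟩
  · rintro _ ⟨x, hx, rfl⟩ _ ⟨y, rfl⟩
    refine ⟨y * x * y⁻¹, fun j hj => NZ_conj (FF_conj X b L j) (hx j hj) y, ?_⟩
    rw [map_mul, map_mul, map_inv]
  · refine squeeze_zero (fun N => dens_nonneg _ _) (fun N => dens_mono ?_ N) m1
    intro v hv hiff
    apply hv
    rw [hiff]
    constructor
    · rintro ⟨σ, hσD, hσ⟩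
      exact ⟨σ, hσ, σ, hσD, rfl⟩
    · rintro ⟨σ, hσ, x, hx, hxσ⟩
      exact ⟨σ, hright x hx σ hxσ.symm, hσ⟩
  · have e1 : Nat.card (GK K ⧸ (UU X b L).toSubgroup) = Nat.card (Rd X b L).range :=
      Nat.card_congr (QuotientGroup.quotientKerEquivRange (Rd X b L)).toEquiv
    have e2 : ((QuotientGroup.mk : GK K → GK K ⧸ (UU X b L).toSubgroup) '' DD X b L s).ncard =
        (Rd X b L '' DD X b L s).ncard := by
      have e3 : Rd X b L '' DD X b L s = (QuotientGroup.kerLift (Rd X b L)) ''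
          ((QuotientGroup.mk : GK K → GK K ⧸ (Rd X b L).ker) '' DD X b L s) := by
        rw [Set.image_image]
        rfl
      rw [e3, Set.ncard_image_of_injective _ (QuotientGroup.kerLift_injective _)]
      rfl
    rw [e1, e2] at m2
    exact m2

end

end Pool.Agent.V7H31.OD
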