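import Pool.Agent.N184.HK.Num

/-!
# Natural density of ordinary reduction: definitions
-/

set_option autoImplicit false

namespace Pool.Agent.V7H31.OD

open NumberField IsDedekindDomain Filter Topology
open Pool.Agent.W401.Cheb Pool.Agent.N184.HK

section

variable {K : Type} [Field K] [NumberField K] {ℓ : ℕ} [Fact ℓ.Prime]

/-- A stable lattice of rank `b` in the `ℓ`-adic representation `R`: for some basis of the space all
Galois elements `σ` have matrices `mat σ` with entries in `ℤ_ℓ`, which depend continuously on `σ`.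
Example: `R = H²(X ⊗ K^s, ℚ_ℓ(1))`, with a basis of `H²(X ⊗ K^s, ℤ_ℓ(1))` modulo torsion. -/
structure Lattice (R : GalRep K ℓ) (b : ℕ) where
  basis : Module.Basis (Fin b) ℚ_[ℓ] R.V
  mat : GK K →* Matrix (Fin b) (Fin b) ℤ_[ℓ]
  cont : ∀ i j, Continuous fun σ => mat σ i j
  eq : ∀ σ i j, LinearMap.toMatrix basis basis (R.r σ) i j = (mat σ i j : ℚ_[ℓ])

/-- The action of the Galois group on the lattice modulo `ℓ`. -/
noncomputable def Lattice.red {R : GalRep K ℓ} {b : ℕ} (L : Lattice R b) :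
    GK K →* GL (Fin b) (ZMod ℓ) :=
  (((PadicInt.toZMod (p := ℓ)).mapMatrix : Matrix (Fin b) (Fin b) ℤ_[ℓ] →+*
    Matrix (Fin b) (Fin b) (ZMod ℓ)).toMonoidHom.comp L.mat).toHomUnits

/-- `X` has good reduction at `v`, and the reduction is ordinary in all degrees. -/
def Ord (X : Hyperkaehler K ℓ) (v : HeightOneSpectrum (𝓞 K)) : Prop :=
  ∃ hv : v ∉ X.bad, ∀ i ≤ X.d, X.OrdinaryIn v hv i

end

/-- A family of projective hyperkähler varieties over `K`, with their `ℓ`-adic cohomology for all odd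
prime numbers `ℓ`: `X ℓ i` are the cohomological data (`Hyperkaehler`) of the variety with the index
`i`, `b i` is its second Betti number, `lat ℓ i` is a stable lattice in `H²(1)`, for example the
cohomology with coefficients in `ℤ_ℓ`. The data for different `ℓ` belong to the same variety: the
sets of the ordinary places are the same, up to finite sets. -/
structure Family (K : Type) [Field K] [NumberField K] (ι : Type) where
  b : ι → ℕ
  X : ∀ (ℓ : ℕ) [Fact ℓ.Prime], ι → Hyperkaehler K ℓ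
  rank : ∀ (ℓ : ℕ) [Fact ℓ.Prime] (i : ι), ℓ ≠ 2 → (X ℓ i).b 2 = b i
  lat : ∀ (ℓ : ℕ) [Fact ℓ.Prime] (i : ι), ℓ ≠ 2 → Lattice (X ℓ i).R (b i)
  same : ∀ (ℓ ℓ' : ℕ) [Fact ℓ.Prime] [Fact ℓ'.Prime] (i : ι), ℓ ≠ 2 → ℓ' ≠ 2 →
    {v | ¬ (Ord (X ℓ i) v ↔ Ord (X ℓ' i) v)}.Finite

section

variable {K : Type} [Field K] [NumberField K] {ι : Type}

/-- All varieties of the family have good ordinary reduction at `v` (in all degrees). -/
def Family.Ordinary (𝒳 : Family K ι) (ℓ : ℕ) [Fact ℓ.Prime] (v : HeightOneSpectrum (𝓞 K)) : Prop :=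
  ∀ i, Ord (𝒳.X ℓ i) v

/-- The product of the groups `GL(H²(X_i, F_ℓ))`. -/
abbrev Family.GLs (𝒳 : Family K ι) (ℓ : ℕ) : Type := ∀ i, GL (Fin (𝒳.b i)) (ZMod ℓ)

/-- The action of the Galois group on the product of the second cohomology groups modulo `ℓ`. -/
noncomputable def Family.red (𝒳 : Family K ι) (ℓ : ℕ) [Fact ℓ.Prime] (h : ℓ ≠ 2) :
    GK K →* 𝒳.GLs ℓ :=
  Pi.monoidHom fun i => (𝒳.lat ℓ i h).red

/-- The image of the Galois group modulo `ℓ`. -/
noncomputable def Family.image (𝒳 : Family K ι) (ℓ : ℕ) [Fact ℓ.Prime] (h : ℓ ≠ 2) :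
    Subgroup (𝒳.GLs ℓ) :=
  (𝒳.red ℓ h).range

/-- The set `P` of places has the natural density `δ`: the proportion of the places in `P` among the
places of norm at most `N` tends to `δ`. -/
def HasDensity (P : HeightOneSpectrum (𝓞 K) → Prop) (δ : ℚ) : Prop :=
  Tendsto (Pool.Agent.W528.Ord.ratio P) atTop (𝓝 (δ : ℝ))

/-- The set `C` in the image of Galois modulo `ℓ` contains `1`, is stable under conjugation and decides
if the reduction is ordinary: outside of a set of places of density zero the reduction at `v` is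
ordinary if and only if the Frobenius at `v` modulo `ℓ` is in `C`. -/
structure Family.Decides (𝒳 : Family K ι) (ℓ : ℕ) [Fact ℓ.Prime] (h : ℓ ≠ 2)
    (C : Set (𝒳.GLs ℓ)) : Prop where
  sub : C ⊆ 𝒳.image ℓ h
  one : 1 ∈ C
  conj : ∀ c ∈ C, ∀ g ∈ 𝒳.image ℓ h, g * c * g⁻¹ ∈ C
  decides : HasDensity (fun v => ¬ (𝒳.Ordinary ℓ v ↔ ∃ σ, IsFrob v σ ∧ 𝒳.red ℓ h σ ∈ C)) 0

end

end Pool.Agent.V7H31.OD
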