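import Mathlib

/-!
# Functions which satisfy a linear recurrence along the powers of a group element
-/

set_option autoImplicit false
set_option linter.all false

namespace Pool.Agent.V7H31.OD

open Polynomial

section interp

variable {𝕜 : Type*} [Field 𝕜]

/-- the product of the linear factors -/
noncomputable def lin (S : Multiset 𝕜) : 𝕜[X] := (S.map fun a => X - C a).prod

lemma lin_cons (a : 𝕜) (S : Multiset 𝕜) : lin (a ::ₘ S) = (X - C a) * lin S := by
  simp [lin]

lemma lin_add (S T : Multiset 𝕜) : lin (S + T) = lin S * lin T := by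
  simp [lin]

/-- the quotient of the polynomials `X ^ m - b ^ m` and `X - b` -/
noncomputable def quo (m : ℕ) (b : 𝕜) : 𝕜[X] := ∑ i ∈ Finset.range m, X ^ i * (C b) ^ (m - 1 - i)

lemma quo_mul (m : ℕ) (b : 𝕜) : quo m b * (X - C b) = X ^ m - C (b ^ m) := by
  rw [quo, C_pow]
  exact (Commute.all (X : 𝕜[X]) (C b)).geom_sum₂_mul m

lemma quo_eval (m : ℕ) (hm : (m : 𝕜) ≠ 0) (a b : 𝕜) (ha : a ≠ 0) (h : a ^ m = b ^ m → a = b) :
    (quo m b).eval a ≠ 0 := by
  by_cases hab : a = b
  · subst hab
    have h1 : (quo m a).eval a = m * a ^ (m - 1) := by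
      rw [quo, eval_finset_sum]
      have h2 : ∀ i ∈ Finset.range m, eval a (X ^ i * (C a) ^ (m - 1 - i)) = a ^ (m - 1) := by
        intro i hi
        rw [Finset.mem_range] at hi
        simp only [eval_mul, eval_pow, eval_X, eval_C]
        rw [← pow_add]
        congr 1
        omega
      rw [Finset.sum_congr rfl h2, Finset.sum_const, Finset.card_range, nsmul_eq_mul]
    rw [h1]
    exact mul_ne_zero hm (pow_ne_zero _ ha)
  · intro h0
    have h1 := congrArg (eval a) (quo_mul m b)
    rw [eval_mul, h0, zero_mul] at h1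
    simp only [eval_sub, eval_pow, eval_X, eval_C] at h1
    exact hab (h (sub_eq_zero.1 h1.symm))

lemma exists_interp (m : ℕ) (hm : (m : 𝕜) ≠ 0) (Λ : Set 𝕜) (h0 : ∀ a ∈ Λ, a ≠ 0)
    (hinj : ∀ a ∈ Λ, ∀ b ∈ Λ, a ^ m = b ^ m → a = b) (S : Multiset 𝕜) (hS : ∀ a ∈ S, a ∈ Λ) :
    ∃ P : 𝕜[X], lin S ∣ P.comp (X ^ m) - X := by
  classical
  induction S using Multiset.induction_on with
  | empty => exact ⟨0, by simp [lin]⟩
  | cons a S ih =>
    obtain ⟨P, h, hP⟩ := ih (fun b hb => hS b (Multiset.mem_cons_of_mem hb))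
    have ha := hS a (Multiset.mem_cons_self a S)
    have hQ : ∃ (N Q : 𝕜[X]), N.comp (X ^ m) = lin S * Q ∧ Q.eval a ≠ 0 := by
      have hS' : ∀ b ∈ S, b ∈ Λ := fun b hb => hS b (Multiset.mem_cons_of_mem hb)
      clear hP ih hS
      induction S using Multiset.induction_on with
      | empty => exact ⟨1, 1, by simp [lin], by simp⟩
      | cons b S ih2 =>
        obtain ⟨N, Q, hN, hQ⟩ := ih2 (fun c hc => hS' c (Multiset.mem_cons_of_mem hc))
        have hb := hS' b (Multiset.mem_cons_self b S)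
        refine ⟨(X - C (b ^ m)) * N, quo m b * Q, ?_, ?_⟩
        · rw [mul_comp, hN, sub_comp, X_comp, C_comp, ← quo_mul, lin_cons]
          ring
        · rw [eval_mul]
          exact mul_ne_zero (quo_eval m hm a b (h0 a ha) (hinj a ha b hb)) hQ
    obtain ⟨N, Q, hNQ, hQa⟩ := hQ
    refine ⟨P - C (h.eval a / Q.eval a) * N, ?_⟩
    have e : (P - C (h.eval a / Q.eval a) * N).comp (X ^ m) - X =
        lin S * (h - C (h.eval a / Q.eval a) * Q) := by
      rw [sub_comp, mul_comp, C_comp, hNQ]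
      have : P.comp (X ^ m) = lin S * h + X := by rw [← hP]; ring
      rw [this]
      ring
    rw [e, lin_cons, mul_comm (X - C a)]
    refine mul_dvd_mul_left _ (dvd_iff_isRoot.2 ?_)
    rw [IsRoot, eval_sub, eval_mul, eval_C, div_mul_cancel₀ _ hQa, sub_self]

end interp

section rec

variable {𝕜 : Type*} [Field 𝕜] {G : Type*} [Group G]

/-- right translation -/
noncomputable def R (u : G) : Module.End 𝕜 (G → 𝕜) := LinearMap.funLeft 𝕜 𝕜 (fun x => x * u)

lemma R_apply (u : G) (F : G → 𝕜) (x : G) : R u F x = F (x * u) := rfl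

lemma R_mul (u : G) (F F' : G → 𝕜) : R u (F * F') = R u F * R u F' := rfl

lemma R_pow (u : G) (k : ℕ) (F : G → 𝕜) (x : G) : ((R u) ^ k) F x = F (x * u ^ k) := by
  induction k generalizing x with
  | zero => simp
  | succ k ih =>
    rw [pow_succ', Module.End.mul_apply, R_apply, ih, mul_assoc, ← pow_succ']

lemma lin_kill_cons (u : G) (a : 𝕜) (S : Multiset 𝕜) (F : G → 𝕜) :
    aeval (R u) (lin (a ::ₘ S)) F = aeval (R u) (lin S) (R u F - a • F) := by
  rw [lin_cons, mul_comm, map_mul, Module.End.mul_apply]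
  congr 1
  simp [sub_eq_add_neg]

lemma R_comm (u : G) (q : 𝕜[X]) (F : G → 𝕜) :
    aeval (R u) q (R u F) = R u (aeval (R u) q F) := by
  have h : aeval (R u) (q * X) F = aeval (R u) (X * q) F := by rw [mul_comm]
  rw [map_mul, map_mul, aeval_X] at h
  exact h

lemma kill_add (u : G) {S T : Multiset 𝕜} {F F' : G → 𝕜} (h1 : aeval (R u) (lin S) F = 0)
    (h2 : aeval (R u) (lin T) F' = 0) : aeval (R u) (lin (S + T)) (F + F') = 0 := by
  have e1 : aeval (R u) (lin (S + T)) F = 0 := by
    rw [lin_add, mul_comm, map_mul (aeval (R u)), Module.End.mul_apply, h1, map_zero]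
  have e2 : aeval (R u) (lin (S + T)) F' = 0 := by
    rw [lin_add, map_mul (aeval (R u)), Module.End.mul_apply, h2, map_zero]
  rw [map_add, e1, e2, add_zero]

lemma mul_kill (u : G) (Λ : Submonoid 𝕜) : ∀ (n : ℕ) (S T : Multiset 𝕜),
    Multiset.card S + Multiset.card T = n → (∀ a ∈ S, a ∈ Λ) → (∀ a ∈ T, a ∈ Λ) →
    ∀ F F' : G → 𝕜, aeval (R u) (lin S) F = 0 → aeval (R u) (lin T) F' = 0 →
    ∃ W : Multiset 𝕜, (∀ a ∈ W, a ∈ Λ) ∧ aeval (R u) (lin W) (F * F') = 0 := by
  intro n
  induction n with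
  | zero =>
    intro S T hc hS hT F F' h1 h2
    have hS0 : S = 0 := Multiset.card_eq_zero.1 (by omega)
    subst hS0
    have h3 : F = 0 := by simpa [lin] using h1
    exact ⟨0, by simp, by rw [h3, zero_mul, map_zero]⟩
  | succ n ih =>
    intro S T hc hS hT F F' h1 h2
    induction S using Multiset.induction_on with
    | empty =>
      have h3 : F = 0 := by simpa [lin] using h1
      exact ⟨0, by simp, by rw [h3, zero_mul, map_zero]⟩
    | cons a S _ =>
      induction T using Multiset.induction_on with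
      | empty =>
        have h3 : F' = 0 := by simpa [lin] using h2
        exact ⟨0, by simp, by rw [h3, mul_zero, map_zero]⟩
      | cons b T _ =>
        have ha := hS a (Multiset.mem_cons_self a S)
        have hb := hT b (Multiset.mem_cons_self b T)
        have hS' : ∀ c ∈ S, c ∈ Λ := fun c hc => hS c (Multiset.mem_cons_of_mem hc)
        have hT' : ∀ c ∈ T, c ∈ Λ := fun c hc => hT c (Multiset.mem_cons_of_mem hc)
        have g1 := h1
        have g2 := h2
        rw [lin_kill_cons] at g1 g2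
        have h4 : aeval (R u) (lin (b ::ₘ T)) (R u F') = 0 := by
          rw [R_comm, h2, map_zero]
        have h5 : aeval (R u) (lin (a ::ₘ S)) (a • F) = 0 := by
          rw [map_smul, h1, smul_zero]
        simp only [Multiset.card_cons] at hc
        obtain ⟨W1, hW1, e1⟩ := ih S (b ::ₘ T) (by rw [Multiset.card_cons]; omega) hS' hT _ _ g1 h4
        obtain ⟨W2, hW2, e2⟩ := ih (a ::ₘ S) T (by rw [Multiset.card_cons]; omega) hS hT' _ _ h5 g2
        refine ⟨(a * b) ::ₘ (W1 + W2), ?_, ?_⟩
        · intro c hc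
          rw [Multiset.mem_cons, Multiset.mem_add] at hc
          rcases hc with rfl | hc | hc
          · exact Λ.mul_mem ha hb
          · exact hW1 c hc
          · exact hW2 c hc
        · have e : R u (F * F') - (a * b) • (F * F') =
              (R u F - a • F) * R u F' + (a • F) * (R u F' - b • F') := by
            rw [R_mul]
            funext x
            simp only [Pi.sub_apply, Pi.mul_apply, Pi.smul_apply, Pi.add_apply, smul_eq_mul]
            ring
          rw [lin_kill_cons, e]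
          exact kill_add u e1 e2

/-- The algebra of the functions killed by a product of linear factors with roots in `Λ`. -/
noncomputable def Kil (u : G) (Λ : Submonoid 𝕜) : Subalgebra 𝕜 (G → 𝕜) where
  carrier := {F | ∃ W : Multiset 𝕜, (∀ a ∈ W, a ∈ Λ) ∧ aeval (R u) (lin W) F = 0}
  mul_mem' := by
    rintro F F' ⟨S, hS, h1⟩ ⟨T, hT, h2⟩
    exact mul_kill u Λ _ S T rfl hS hT F F' h1 h2
  add_mem' := by
    rintro F F' ⟨S, hS, h1⟩ ⟨T, hT, h2⟩
    refine ⟨S + T, ?_, ?_⟩
    · intro a ha
      rcases Multiset.mem_add.1 ha with h | h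
      · exact hS a h
      · exact hT a h
    · exact kill_add u h1 h2
  algebraMap_mem' := by
    intro c
    refine ⟨{1}, ?_, ?_⟩
    · intro a ha
      rw [Multiset.mem_singleton] at ha
      rw [ha]
      exact Λ.one_mem
    · have e : lin ({1} : Multiset 𝕜) = X - C 1 := by simp [lin]
      rw [e]
      funext x
      simp [R, LinearMap.funLeft_apply, Pi.algebraMap_apply]

lemma mem_Kil (u : G) (Λ : Submonoid 𝕜) (F : G → 𝕜) :
    F ∈ Kil u Λ ↔ ∃ W : Multiset 𝕜, (∀ a ∈ W, a ∈ Λ) ∧ aeval (R u) (lin W) F = 0 := Iff.rfl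

/-- A function in the algebra which vanishes at all powers of `u ^ m` vanishes at `u`. -/
lemma vanish (u : G) (Λ : Submonoid 𝕜) (h0 : ∀ a ∈ Λ, a ≠ 0) (m : ℕ) (hm : (m : 𝕜) ≠ 0)
    (hinj : ∀ a ∈ Λ, ∀ b ∈ Λ, a ^ m = b ^ m → a = b) (F : G → 𝕜) (hF : F ∈ Kil u Λ)
    (h : ∀ k : ℕ, F (u ^ (m * k)) = 0) : F u = 0 := by
  obtain ⟨W, hW, hk⟩ := hF
  obtain ⟨P, D, hP⟩ := exists_interp m hm Λ h0 hinj W hW
  have e1 : aeval (R u) (P.comp (X ^ m)) F 1 = 0 := by
    rw [aeval_comp, map_pow, aeval_X, aeval_eq_sum_range, LinearMap.sum_apply, Finset.sum_apply]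
    refine Finset.sum_eq_zero fun k _ => ?_
    rw [LinearMap.smul_apply, Pi.smul_apply, ← pow_mul, R_pow, one_mul, h, smul_zero]
  have e2 : P.comp (X ^ m) = X + D * lin W := by
    rw [mul_comm D, ← hP]; ring
  rw [e2, map_add, map_mul, aeval_X, LinearMap.add_apply, Pi.add_apply, Module.End.mul_apply, hk,
    map_zero, Pi.zero_apply, add_zero, R_apply, one_mul] at e1
  exact e1

/-- Matrix entries. -/
lemma entry_Kil {n : Type*} [Fintype n] [DecidableEq n] [IsAlgClosed 𝕜] (ρ : G →* Matrix n n 𝕜)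
    (u : G) (Λ : Submonoid 𝕜) (h : ∀ a ∈ (ρ u).charpoly.roots, a ∈ Λ) (i j : n) :
    (fun x => ρ x i j) ∈ Kil u Λ := by
  refine ⟨(ρ u).charpoly.roots, h, ?_⟩
  have e : lin (ρ u).charpoly.roots = (ρ u).charpoly := by
    have := (IsAlgClosed.splits (ρ u).charpoly).eq_prod_roots_of_monic
      (Matrix.charpoly_monic _)
    rw [lin]
    exact this.symm
  rw [e]
  have key : ∀ (q : 𝕜[X]) (M : Matrix n n 𝕜),
      aeval (R u) q (fun x => (ρ x * M) i j) = fun x => (ρ x * (aeval (ρ u) q * M)) i j := by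
    intro q
    induction q using Polynomial.induction_on' with
    | add p q hp hq =>
      intro M
      rw [map_add, LinearMap.add_apply, hp, hq]
      funext x
      rw [Pi.add_apply, map_add, add_mul, mul_add, Matrix.add_apply]
    | monomial k c =>
      intro M
      funext x
      rw [aeval_monomial, aeval_monomial]
      rw [Module.End.mul_apply, Module.algebraMap_end_apply, Pi.smul_apply, R_pow]
      rw [map_mul, map_pow, Algebra.algebraMap_eq_smul_one, smul_mul_assoc, one_mul, smul_mul_assoc,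
        mul_smul_comm, Matrix.smul_apply, mul_assoc]
  have h1 := key (ρ u).charpoly 1
  rw [Matrix.aeval_self_charpoly] at h1
  simp only [mul_one, zero_mul, mul_zero, Matrix.zero_apply] at h1
  exact h1

end rec

end Pool.Agent.V7H31.OD
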