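import Pool.Agent.V7H31.OD.Defs

/-!
# The multiplications on the transcendental part of `H²`: definitions
-/

set_option autoImplicit false

namespace Pool.Agent.V7H31.OD

open NumberField IsDedekindDomain
open Pool.Agent.W401.Cheb Pool.Agent.N184.HK

variable {K : Type} [Field K] [NumberField K] {ℓ : ℕ} [Fact ℓ.Prime]

/-- A subfield `E` of the algebraic closure of `K`, stable under the Galois group, with an action `θ` on
a representation `R` such that `γ θ(e) γ⁻¹ = θ(γ e)`. It is not assumed that `θ 1 = 1`; `θ 1` is a
projector. -/
structure EndField (R : GalRep K ℓ) where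
  E : Subfield (AlgebraicClosure K)
  stable : ∀ (γ : GK K), ∀ e ∈ E, γ e ∈ E
  θ : E → Module.End ℚ_[ℓ] R.V
  add : ∀ a b, θ (a + b) = θ a + θ b
  mul : ∀ a b, θ (a * b) = θ a * θ b
  equi : ∀ (γ : GK K) (e : E), R.r γ * θ e = θ ⟨γ e, stable γ e e.2⟩ * R.r γ

/-- An open subgroup acts trivially on the kernel of the projector `θ 1`. -/
def EndField.Alg {R : GalRep K ℓ} (M : EndField R) : Prop :=
  ∃ O : Subgroup (GK K), IsOpen (O : Set (GK K)) ∧ ∀ σ ∈ O, R.r σ * (1 - M.θ 1) = 1 - M.θ 1

/-- The endomorphism `φ` of the image of the projector `θ 1` (zero on the kernel) commutes with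
`E`. -/
def EndField.Commutes {R : GalRep K ℓ} (M : EndField R) (φ : Module.End ℚ_[ℓ] R.V) : Prop :=
  M.θ 1 * φ = φ ∧ φ * M.θ 1 = φ ∧ ∀ e, φ * M.θ e = M.θ e * φ

/-- For every open subgroup `O` all endomorphisms of the image of the projector `θ 1` which commute
with `E` are linear combinations of elements of `O`. -/
def EndField.Tate {R : GalRep K ℓ} (M : EndField R) : Prop :=
  ∀ O : Subgroup (GK K), IsOpen (O : Set (GK K)) → ∀ φ : Module.End ℚ_[ℓ] R.V,
    M.Commutes φ → φ ∈ Submodule.span ℚ_[ℓ] (R.r '' (O : Set (GK K)))

/-- The endomorphisms of the transcendental part `T` of `H²(X)(1)`, where `H²(1) = N ⊕ T` and `N` is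
spanned by the classes of divisors. They form a field `E` which acts on the holomorphic two-form, a
basis of `H⁰(X ⊗ K^s, Ω²)`, by scalars; so `E` is a subfield of `K^s`.

* `θ e` is the action of `e` on the `ℓ`-adic realisation `R = H²(X ⊗ K^s, ℚ_ℓ(1))`; it is zero on `N`, and
  `θ 1` is the projector to `T`;
* the Galois group acts on the endomorphisms by conjugation; since this is compatible with the
  action on the two-form, it is the natural action on the subfield `E` of `K^s` (`stable`, `equi`);
* `alg`: `N` is fixed by an open subgroup;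
* `tate`: this means that `T` is semisimple for all open subgroups of the Galois group, that its
  commutant is generated by `E`, and that there are no invariants in `T`: theorems of Faltings,
  Tankeev and André (the Tate conjecture for `H²`). -/
structure Mult (X : Hyperkaehler K ℓ) extends EndField X.R where
  alg : toEndField.Alg
  tate : toEndField.Tate

/-- The field generated over `K` by the fields `E i` of endomorphisms. -/
noncomputable def compositum {ι : Type} {X : ι → Hyperkaehler K ℓ} (M : ∀ i, Mult (X i)) :
    IntermediateField K (AlgebraicClosure K) :=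
  IntermediateField.adjoin K (⋃ i, ((M i).E : Set (AlgebraicClosure K)))

/-- Some Frobenius element at `v` fixes the field `F` (if `v` is unramified in the Galois extension
`F`: the place `v` splits completely in `F`). -/
def SplitsIn (F : IntermediateField K (AlgebraicClosure K)) (v : HeightOneSpectrum (𝓞 K)) : Prop :=
  ∃ σ ∈ F.fixingSubgroup, IsFrob v σ

/-- All Frobenius elements at `v` fix the field `E`. -/
def FrobFixes (E : Subfield (AlgebraicClosure K)) (v : HeightOneSpectrum (𝓞 K)) : Prop :=
  ∀ σ, IsFrob v σ → ∀ e ∈ E, σ e = e

/-- All `X i` have good reduction at `v` which is ordinary in all degrees. -/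
def AllOrd {ι : Type} (X : ι → Hyperkaehler K ℓ) (v : HeightOneSpectrum (𝓞 K)) : Prop :=
  ∀ i, Ord (X i) v

end Pool.Agent.V7H31.OD
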