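import Pool.Agent.V7H31.OD.MDefs
import Pool.Agent.V7H31.OD.App
import Pool.Agent.N184.HK.P_FROB

/-!
# The exact density of ordinary reduction
-/

set_option autoImplicit false
set_option linter.all false

namespace Pool.Agent.V7H31.OD

open Module Polynomial NumberField IsDedekindDomain Filter Topology
open Pool.Agent.W401.Cheb Pool.Agent.W528.Ord Pool.Agent.N184.HK

section

variable {K : Type} [Field K] [NumberField K] {ℓ : ℕ} [hp : Fact ℓ.Prime] {ι : Type} [Fintype ι]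
  (X : ι → Hyperkaehler K ℓ) (b : ι → ℕ) (L : ∀ i, Lattice (X i).R (b i))

/-- A linear functional of the representation is a combination of matrix entries. -/
lemma lin_mem (i : ι) (f : Module.End ℚ_[ℓ] (X i).R.V →ₗ[ℚ_[ℓ]] ℚ_[ℓ]) :
    (fun σ => algebraMap ℚ_[ℓ] (PadicAlgCl ℓ) (f ((X i).R.r σ))) ∈
      Algebra.adjoin (PadicAlgCl ℓ) (TT X b L) := by
  classical
  have e : ∀ σ, f ((X i).R.r σ) = ∑ a, ∑ c, (((L i).mat σ a c : ℤ_[ℓ]) : ℚ_[ℓ]) *
      f (Matrix.toLin (L i).basis (L i).basis (Matrix.single a c 1)) := by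
    intro σ
    have e1 : (X i).R.r σ = Matrix.toLin (L i).basis (L i).basis
        (LinearMap.toMatrix (L i).basis (L i).basis ((X i).R.r σ)) :=
      (Matrix.toLin_toMatrix _ _ _).symm
    conv_lhs => rw [e1, Matrix.matrix_eq_sum_single
      (LinearMap.toMatrix (L i).basis (L i).basis ((X i).R.r σ))]
    rw [map_sum, map_sum]
    refine Finset.sum_congr rfl fun a _ => ?_
    rw [map_sum, map_sum]
    refine Finset.sum_congr rfl fun c _ => ?_
    have e2 : Matrix.single a c (LinearMap.toMatrix (L i).basis (L i).basis ((X i).R.r σ) a c) =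
        (((L i).mat σ a c : ℤ_[ℓ]) : ℚ_[ℓ]) • Matrix.single a c (1 : ℚ_[ℓ]) := by
      rw [(L i).eq, Matrix.smul_single, smul_eq_mul, mul_one]
    rw [e2, map_smul, map_smul, smul_eq_mul]
  have e3 : (fun σ => algebraMap ℚ_[ℓ] (PadicAlgCl ℓ) (f ((X i).R.r σ))) =
      ∑ a, ∑ c, (algebraMap ℚ_[ℓ] (PadicAlgCl ℓ)
        (f (Matrix.toLin (L i).basis (L i).basis (Matrix.single a c 1)))) •
          (fun σ => aM ℓ ((L i).mat σ a c)) := by
    funext σ
    rw [e, map_sum, Finset.sum_apply]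
    refine Finset.sum_congr rfl fun a _ => ?_
    rw [map_sum, Finset.sum_apply]
    refine Finset.sum_congr rfl fun c _ => ?_
    rw [map_mul, Pi.smul_apply, smul_eq_mul, mul_comm]
    rfl
  rw [e3]
  refine Subalgebra.sum_mem _ fun a _ => Subalgebra.sum_mem _ fun c _ => ?_
  have h5 : (fun x => aM ℓ ((L i).mat x a c)) ∈ Algebra.adjoin (PadicAlgCl ℓ) (TT X b L) :=
    Algebra.subset_adjoin ⟨i, a, c, rfl⟩
  exact Subalgebra.smul_mem _ h5 _

lemma lin_const (hℓ : ℓ ≠ 2) (i : ι) (f : Module.End ℚ_[ℓ] (X i).R.V →ₗ[ℚ_[ℓ]] ℚ_[ℓ]) (c : ℚ_[ℓ])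
    (O : Subgroup (GK K)) (hO : IsOpen (O : Set (GK K))) (h : ∀ σ ∈ O, f ((X i).R.r σ) = c) :
    ∀ u ∈ UU X b L, f ((X i).R.r u) = c := by
  intro u hu
  have hF : (fun σ => algebraMap ℚ_[ℓ] (PadicAlgCl ℓ) (f ((X i).R.r σ))) -
      algebraMap (PadicAlgCl ℓ) (GK K → PadicAlgCl ℓ) (algebraMap ℚ_[ℓ] (PadicAlgCl ℓ) c) ∈
        Algebra.adjoin (PadicAlgCl ℓ) (TT X b L) :=
    Subalgebra.sub_mem _ (lin_mem X b L i f) (Subalgebra.algebraMap_mem _ _)
  haveI : Finite (GK K ⧸ O) := Subgroup.quotient_finite_of_isOpen _ hO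
  have hVi : O.index ≠ 0 := (Subgroup.finiteIndex_of_finite_quotient (H := O)).index_ne_zero
  have h1 := conn hℓ b (fun i => (L i).mat) (Rd X b L).ker (fun u hu i => UU_cong X b L u hu i) _ hF O
    hVi (fun x hx => by
      change algebraMap ℚ_[ℓ] (PadicAlgCl ℓ) (f ((X i).R.r x)) -
        algebraMap ℚ_[ℓ] (PadicAlgCl ℓ) c = 0
      rw [h x hx, sub_self]) u hu
  have h2 : algebraMap ℚ_[ℓ] (PadicAlgCl ℓ) (f ((X i).R.r u)) -
        algebraMap ℚ_[ℓ] (PadicAlgCl ℓ) c = 0 := h1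
  exact (algebraMap ℚ_[ℓ] (PadicAlgCl ℓ)).injective (sub_eq_zero.1 h2)

lemma op_const (hℓ : ℓ ≠ 2) (i : ι)
    (A : Module.End ℚ_[ℓ] (X i).R.V →ₗ[ℚ_[ℓ]] Module.End ℚ_[ℓ] (X i).R.V)
    (W : Module.End ℚ_[ℓ] (X i).R.V)
    (O : Subgroup (GK K)) (hO : IsOpen (O : Set (GK K))) (h : ∀ σ ∈ O, A ((X i).R.r σ) = W) :
    ∀ u ∈ UU X b L, A ((X i).R.r u) = W := by
  intro u hu
  rw [← sub_eq_zero, ← Module.forall_dual_apply_eq_zero_iff ℚ_[ℓ]]
  intro f
  rw [map_sub, sub_eq_zero]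
  exact lin_const X b L hℓ i (f ∘ₗ A) (f W) O hO (fun σ hσ => by
    rw [LinearMap.comp_apply, h σ hσ]) u hu

end

section

variable {K : Type} [Field K] [NumberField K] {ℓ : ℕ} [hp : Fact ℓ.Prime] {Y : Hyperkaehler K ℓ}
  (M : Mult Y)

lemma r_inv (γ : GK K) : Y.R.r γ * Y.R.r γ⁻¹ = 1 := by
  rw [← map_mul, mul_inv_cancel, map_one]

lemma r_inv' (γ : GK K) : Y.R.r γ⁻¹ * Y.R.r γ = 1 := by
  rw [← map_mul, inv_mul_cancel, map_one]

lemma Mult.zero : M.θ 0 = 0 := by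
  have h := M.add 0 0
  rw [add_zero] at h
  simpa using h

lemma Mult.sub (a c : M.E) : M.θ (a - c) = M.θ a - M.θ c := by
  have h := M.add (a - c) c
  rw [sub_add_cancel] at h
  rw [h, add_sub_cancel_right]

lemma Mult.one_mul (e : M.E) : M.θ 1 * M.θ e = M.θ e := by
  rw [← M.mul, _root_.one_mul]

lemma Mult.mul_one (e : M.E) : M.θ e * M.θ 1 = M.θ e := by
  rw [← M.mul, _root_.mul_one]

lemma Mult.comm_one (γ : GK K) : Y.R.r γ * M.θ 1 = M.θ 1 * Y.R.r γ := by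
  have h := M.equi γ 1
  have e : (⟨γ ((1 : M.E) : AlgebraicClosure K), M.stable γ _ (1 : M.E).2⟩ : M.E) = 1 :=
    Subtype.ext (by simp)
  rwa [e] at h

lemma Mult.one_ne : M.θ 1 ≠ 0 := by
  intro h0
  obtain ⟨O, hO, h⟩ := M.alg
  obtain ⟨σ, hσ, hne⟩ := Y.nonconst (O : Set (GK K)) hO (one_mem _)
  apply hne
  have h1 := h σ hσ
  rw [h0, sub_zero, _root_.mul_one] at h1
  rw [GalRep.tr, GalRep.tr, h1, MonoidHom.map_one Y.R.r]

lemma Mult.inj {a c : M.E} (h : M.θ a = M.θ c) : a = c := by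
  by_contra hne
  have h1 : M.θ (a - c) = 0 := by rw [M.sub, h, sub_self]
  have h2 : a - c ≠ 0 := sub_ne_zero.2 hne
  apply M.one_ne
  rw [← inv_mul_cancel₀ h2, M.mul, h1, mul_zero]

/-- the endomorphisms of `T` commuting with `E` -/
def Mult.B (φ : Module.End ℚ_[ℓ] Y.R.V) : Prop :=
  M.θ 1 * φ = φ ∧ φ * M.θ 1 = φ ∧ ∀ e, φ * M.θ e = M.θ e * φ

lemma Mult.B_theta {φ : Module.End ℚ_[ℓ] Y.R.V} (h : M.B φ) (e : M.E) : M.B (φ * M.θ e) := by
  obtain ⟨h1, h2, h3⟩ := h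
  refine ⟨by rw [← mul_assoc, h1], by rw [mul_assoc, M.mul_one], fun a => ?_⟩
  rw [mul_assoc, ← M.mul, mul_comm, M.mul, ← mul_assoc, h3 a, mul_assoc]

/-- Galois elements which act nontrivially on `E` have trace zero on `T`. -/
lemma Mult.trace_zero (γ : GK K) (e : M.E) (he : γ (e : AlgebraicClosure K) ≠ e)
    {φ : Module.End ℚ_[ℓ] Y.R.V} (h : M.B φ) :
    LinearMap.trace ℚ_[ℓ] Y.R.V (Y.R.r γ * φ) = 0 := by
  set e' : M.E := ⟨γ e, M.stable γ e e.2⟩ with he'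
  have hne : e - e' ≠ 0 := by
    rw [sub_ne_zero]
    intro h
    exact he (congrArg Subtype.val h).symm
  set ψ := φ * M.θ (e - e')⁻¹ with hψ
  have hB : M.B ψ := M.B_theta h _
  have e1 : ψ * M.θ (e - e') = φ := by
    rw [hψ, mul_assoc, ← M.mul, inv_mul_cancel₀ hne, h.2.1]
  have e2 : LinearMap.trace ℚ_[ℓ] Y.R.V (Y.R.r γ * (ψ * M.θ e)) =
      LinearMap.trace ℚ_[ℓ] Y.R.V (Y.R.r γ * (ψ * M.θ e')) := by
    calc LinearMap.trace ℚ_[ℓ] Y.R.V (Y.R.r γ * (ψ * M.θ e))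
        = LinearMap.trace ℚ_[ℓ] Y.R.V ((Y.R.r γ * M.θ e) * ψ) := by rw [hB.2.2 e, mul_assoc]
      _ = LinearMap.trace ℚ_[ℓ] Y.R.V (M.θ e' * (Y.R.r γ * ψ)) := by rw [M.equi γ e, mul_assoc]
      _ = LinearMap.trace ℚ_[ℓ] Y.R.V ((Y.R.r γ * ψ) * M.θ e') := LinearMap.trace_mul_comm _ _ _
      _ = _ := by rw [mul_assoc]
  rw [← e1, M.sub, mul_sub, mul_sub, map_sub, e2, sub_self]

end

section

variable {K : Type} [Field K] [NumberField K] {ℓ : ℕ} [hp : Fact ℓ.Prime] {ι : Type} [Fintype ι]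
  (X : ι → Hyperkaehler K ℓ) (b : ι → ℕ) (L : ∀ i, Lattice (X i).R (b i)) (M : ∀ i, Mult (X i))

lemma stab_open (x : AlgebraicClosure K) :
    IsOpen ((MulAction.stabilizer (GK K) x : Subgroup (GK K)) : Set (GK K)) := by
  haveI : FiniteDimensional K (IntermediateField.adjoin K {x}) :=
    IntermediateField.adjoin.finiteDimensional (Algebra.IsIntegral.isIntegral x)
  refine Subgroup.isOpen_mono ?_ (IntermediateField.fixingSubgroup_isOpen
    (IntermediateField.adjoin K {x}))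
  intro σ hσ
  rw [MulAction.mem_stabilizer_iff]
  exact (IntermediateField.mem_fixingSubgroup_iff _ _).1 hσ x
    (IntermediateField.subset_adjoin K {x} rfl)

lemma U_fix (hℓ : ℓ ≠ 2) (i : ι) (u : GK K) (hu : u ∈ UU X b L) (e : (M i).E) :
    u (e : AlgebraicClosure K) = e := by
  have h1 := op_const X b L hℓ i
    (LinearMap.mulRight ℚ_[ℓ] ((M i).θ e) - LinearMap.mulLeft ℚ_[ℓ] ((M i).θ e)) 0
    (MulAction.stabilizer (GK K) (e : AlgebraicClosure K)) (stab_open _) (fun σ hσ => by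
      have h2 := (M i).equi σ e
      have h3 : (⟨σ e, (M i).stable σ e e.2⟩ : (M i).E) = e :=
        Subtype.ext (MulAction.mem_stabilizer_iff.1 hσ)
      rw [h3] at h2
      rw [LinearMap.sub_apply, LinearMap.mulRight_apply, LinearMap.mulLeft_apply, h2, sub_self])
    u hu
  rw [LinearMap.sub_apply, LinearMap.mulRight_apply, LinearMap.mulLeft_apply, sub_eq_zero,
    (M i).equi u e] at h1
  have h2 : (M i).θ ⟨u e, (M i).stable u e e.2⟩ = (M i).θ e := by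
    have h3 := congrArg (fun z => z * (X i).R.r u⁻¹) h1
    simp only [mul_assoc, r_inv, mul_one] at h3
    exact h3
  exact congrArg Subtype.val ((M i).inj h2)

lemma U_alg (hℓ : ℓ ≠ 2) (i : ι) (u : GK K) (hu : u ∈ UU X b L) :
    (X i).R.r u * (1 - (M i).θ 1) = 1 - (M i).θ 1 := by
  obtain ⟨O, hO, h⟩ := (M i).alg
  exact op_const X b L hℓ i (LinearMap.mulRight ℚ_[ℓ] (1 - (M i).θ 1)) (1 - (M i).θ 1) O hO h u hu

lemma split_tr (hℓ : ℓ ≠ 2) (i : ι) (γ u : GK K) (hu : u ∈ UU X b L) :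
    (X i).R.tr (γ * u) = LinearMap.trace _ _ ((X i).R.r γ * (1 - (M i).θ 1)) +
      LinearMap.trace _ _ ((X i).R.r γ * ((X i).R.r u * (M i).θ 1)) := by
  have e : (X i).R.r (γ * u) = (X i).R.r γ * (1 - (M i).θ 1) +
      (X i).R.r γ * ((X i).R.r u * (M i).θ 1) := by
    rw [← U_alg X b L M hℓ i u hu, map_mul, ← mul_add, ← mul_add]
    congr 2
    rw [sub_add_cancel, _root_.mul_one]
  rw [GalRep.tr, e, map_add]

lemma B_U (hℓ : ℓ ≠ 2) (i : ι) (u : GK K) (hu : u ∈ UU X b L) :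
    (M i).B ((X i).R.r u * (M i).θ 1) := by
  refine ⟨?_, ?_, fun e => ?_⟩
  · rw [← mul_assoc, ← (M i).comm_one, mul_assoc, (M i).one_mul]
  · rw [mul_assoc, (M i).one_mul]
  · have h1 := (M i).equi u e
    have h2 : (⟨u e, (M i).stable u e e.2⟩ : (M i).E) = e :=
      Subtype.ext (U_fix X b L M hℓ i u hu e)
    rw [h2] at h1
    rw [mul_assoc, (M i).one_mul, h1, (M i).comm_one, ← mul_assoc, (M i).mul_one]

/-- The trace is constant on the cosets which act nontrivially on `E`. -/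
lemma nonfix (hℓ : ℓ ≠ 2) (i : ι) (γ : GK K) (e : (M i).E)
    (he : γ (e : AlgebraicClosure K) ≠ e) (u : GK K) (hu : u ∈ UU X b L) :
    (X i).R.tr (γ * u) = LinearMap.trace _ _ ((X i).R.r γ * (1 - (M i).θ 1)) := by
  rw [split_tr X b L M hℓ i γ u hu, (M i).trace_zero γ e he (B_U X b L M hℓ i u hu), add_zero]

/-- A constant value is an integer. -/
lemma const_int (i : ι) (γ : GK K) (c : ℚ_[ℓ])
    (h : ∀ u ∈ UU X b L, (X i).R.tr (γ * u) = c) : ∃ k : ℤ, |k| ≤ (X i).b 2 ∧ c = k := by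
  have hO : IsOpen {x : GK K | γ⁻¹ * x⁻¹ ∈ (UU X b L).toSubgroup} :=
    (UU X b L).isOpen'.preimage (continuous_const.mul continuous_inv)
  have hne : {x : GK K | γ⁻¹ * x⁻¹ ∈ (UU X b L).toSubgroup}.Nonempty :=
    ⟨γ⁻¹, by simp⟩
  have key : ∀ v, v ∉ (X i).bad → (∃ σ ∈ {x : GK K | γ⁻¹ * x⁻¹ ∈ (UU X b L).toSubgroup},
      IsFrob v σ⁻¹) → (Ideal.absNorm v.asIdeal : ℚ_[ℓ]) * c = (((X i).t v : ℤ) : ℚ_[ℓ]) := by
    rintro v hv ⟨σ, hσ, hf⟩
    have h1 := trace_l (X i) hv hf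
    have h2 := h (γ⁻¹ * σ⁻¹) hσ
    rw [mul_inv_cancel_left] at h2
    rw [← h1, h2]
  obtain ⟨v1, hv1, hp1, hs1⟩ := t_frob K (X i).bad (X i).finite _ hO hne
  have hfin : ((X i).bad ∪ {v : HeightOneSpectrum (𝓞 K) |
      Ideal.absNorm v.asIdeal ≤ Ideal.absNorm v1.asIdeal}).Finite :=
    (X i).finite.union (Pool.Agent.W352.ChAbs.finite_le (K := K) _)
  obtain ⟨v2, hv2, hp2, hs2⟩ := t_frob K _ hfin _ hO hne
  have hv2' : v2 ∉ (X i).bad := fun h => hv2 (Or.inl h)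
  have hne2 : Ideal.absNorm v1.asIdeal ≠ Ideal.absNorm v2.asIdeal := fun h =>
    hv2 (Or.inr (by rw [Set.mem_setOf_eq, h]))
  have k1 := key v1 hv1 hs1
  have k2 := key v2 hv2' hs2
  have k3 : ((X i).t v1) * (Ideal.absNorm v2.asIdeal : ℤ) =
      (X i).t v2 * (Ideal.absNorm v1.asIdeal : ℤ) := by
    have : ((((X i).t v1) * (Ideal.absNorm v2.asIdeal : ℤ) : ℤ) : ℚ_[ℓ]) =
        (((X i).t v2 * (Ideal.absNorm v1.asIdeal : ℤ) : ℤ) : ℚ_[ℓ]) := by
      push_cast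
      rw [← k1, ← k2]
      ring
    exact_mod_cast this
  have hcop : IsCoprime (Ideal.absNorm v1.asIdeal : ℤ) (Ideal.absNorm v2.asIdeal : ℤ) :=
    Nat.isCoprime_iff_coprime.2 ((Nat.coprime_primes hp1 hp2).2 hne2)
  obtain ⟨k, hk⟩ := hcop.dvd_of_dvd_mul_right (show (Ideal.absNorm v1.asIdeal : ℤ) ∣
    (X i).t v1 * (Ideal.absNorm v2.asIdeal : ℤ) from ⟨(X i).t v2, by rw [k3, mul_comm]⟩)
  have hN : (0 : ℤ) < Ideal.absNorm v1.asIdeal := by exact_mod_cast hp1.pos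
  refine ⟨k, ?_, ?_⟩
  · have h1 := abs_t_le (X i) hv1
    rw [hk, abs_mul, abs_of_pos hN, mul_comm] at h1
    exact le_of_mul_le_mul_right h1 hN
  · rw [hk] at k1
    push_cast at k1
    have hN' : (Ideal.absNorm v1.asIdeal : ℚ_[ℓ]) ≠ 0 := by exact_mod_cast hp1.ne_zero
    exact mul_left_cancel₀ hN' k1

/-- The trace is not constant on the cosets which act trivially on `E`. -/
lemma fix (hℓ : ℓ ≠ 2) (i : ι) (γ : GK K) (hγ : ∀ e : (M i).E, γ (e : AlgebraicClosure K) = e)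
    (k : ℚ_[ℓ]) : ∃ u ∈ UU X b L, (X i).R.tr (γ * u) ≠ k := by
  by_contra hcon
  push Not at hcon
  have key : ∀ u' ∈ UU X b L, ∀ φ : Module.End ℚ_[ℓ] (X i).R.V, (M i).B φ →
      LinearMap.trace ℚ_[ℓ] (X i).R.V ((X i).R.r γ * ((X i).R.r u' * φ)) =
        LinearMap.trace ℚ_[ℓ] (X i).R.V ((X i).R.r γ * φ) := by
    intro u' hu' φ hφ
    have h1 := (M i).tate (UU X b L).toSubgroup (UU X b L).isOpen' φ hφ
    have h2 : Submodule.span ℚ_[ℓ] ((X i).R.r '' ((UU X b L).toSubgroup : Set (GK K))) ≤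
        LinearMap.ker ((LinearMap.trace ℚ_[ℓ] (X i).R.V) ∘ₗ
          (LinearMap.mulLeft ℚ_[ℓ] ((X i).R.r γ * (X i).R.r u') -
            LinearMap.mulLeft ℚ_[ℓ] ((X i).R.r γ))) := by
      rw [Submodule.span_le]
      rintro _ ⟨w, hw, rfl⟩
      rw [SetLike.mem_coe, LinearMap.mem_ker, LinearMap.comp_apply, LinearMap.sub_apply,
        LinearMap.mulLeft_apply, LinearMap.mulLeft_apply, map_sub, sub_eq_zero]
      have h3 := hcon (u' * w) (mul_mem hu' hw)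
      have h4 := hcon w hw
      rw [GalRep.tr, MonoidHom.map_mul (X i).R.r γ, MonoidHom.map_mul (X i).R.r u',
        ← mul_assoc] at h3
      rw [GalRep.tr, MonoidHom.map_mul (X i).R.r γ] at h4
      rw [h3, h4]
    have h3 := h2 h1
    rw [LinearMap.mem_ker, LinearMap.comp_apply, LinearMap.sub_apply,
      LinearMap.mulLeft_apply, LinearMap.mulLeft_apply, map_sub, sub_eq_zero, mul_assoc] at h3
    exact h3
  obtain ⟨σ, hσ, hne⟩ := (X i).nonconst ((UU X b L).toSubgroup : Set (GK K)) (UU X b L).isOpen'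
    (one_mem _)
  apply hne
  have hB : (M i).B ((X i).R.r γ⁻¹ * (M i).θ 1) := by
    refine ⟨?_, ?_, fun e => ?_⟩
    · rw [← mul_assoc, ← (M i).comm_one, mul_assoc, (M i).one_mul]
    · rw [mul_assoc, (M i).one_mul]
    · have h1 := (M i).equi γ⁻¹ e
      have h2 : (⟨γ⁻¹ (e : AlgebraicClosure K), (M i).stable γ⁻¹ e e.2⟩ : (M i).E) = e := by
        refine Subtype.ext ?_
        have h3 : γ⁻¹ (γ (e : AlgebraicClosure K)) = e := by
          rw [← AlgEquiv.mul_apply, inv_mul_cancel, AlgEquiv.one_apply]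
        rw [hγ e] at h3
        exact h3
      rw [h2] at h1
      rw [mul_assoc, (M i).one_mul, h1, (M i).comm_one, ← mul_assoc, (M i).mul_one]
  have hu' : γ⁻¹ * σ * γ ∈ UU X b L := by
    have := (UU X b L).isNormal'.conj_mem σ hσ γ⁻¹
    rwa [inv_inv] at this
  have h1 := key _ hu' _ hB
  have h2 : (X i).R.r γ * ((X i).R.r (γ⁻¹ * σ * γ) * ((X i).R.r γ⁻¹ * (M i).θ 1)) =
      (X i).R.r σ * (M i).θ 1 := by
    rw [← mul_assoc, ← mul_assoc, ← map_mul, ← map_mul]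
    congr 2
    group
  have h3 : (X i).R.r γ * ((X i).R.r γ⁻¹ * (M i).θ 1) = (M i).θ 1 := by
    rw [← mul_assoc, r_inv, _root_.one_mul]
  rw [h2, h3] at h1
  have h4 := split_tr X b L M hℓ i 1 σ hσ
  have h5 := split_tr X b L M hℓ i 1 1 (one_mem _)
  rw [map_one, _root_.one_mul, _root_.one_mul, _root_.one_mul] at h4
  rw [map_one, _root_.one_mul, _root_.one_mul, _root_.one_mul, _root_.one_mul] at h5
  rw [h4, h5, h1]

end

end Pool.Agent.V7H31.OD
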